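import Mathlib

/-!
# The numbers `R(n) = -2/n + ∑_{k ≤ n} 2^k / k`: `p`-adic framework

Definitions used by the hand-ins for `MP_532480_nt`.
-/

namespace Pool.Agent.TwoPow

open Finset

/-- `R(n) = -2/n + ∑_{k=1}^{n} 2^k/k`. -/
def R (n : ℕ) : ℚ := -2 / (n : ℚ) + ∑ k ∈ Finset.Icc 1 n, (2 : ℚ) ^ k / (k : ℚ)

/-- The numerator `N(n)` of `R(n)` in lowest terms. -/
def numR (n : ℕ) : ℤ := (R n).num

section padic

variable (p : ℕ) [hp : Fact p.Prime]

/-- The inverse of `i` in `ℤ_[p]` (`0` if `p ∣ i`). -/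
noncomputable def pinv (i : ℕ) : ℤ_[p] :=
  if h : p.Coprime i then ⟨(i : ℚ_[p])⁻¹, by
    rw [norm_inv, Padic.norm_natCast_eq_one_iff.mpr h]; simp⟩ else 0

variable {p}

lemma coe_pinv {i : ℕ} (h : p.Coprime i) : ((pinv p i : ℤ_[p]) : ℚ_[p]) = (i : ℚ_[p])⁻¹ :=
  congrArg (fun z : ℤ_[p] => (z : ℚ_[p])) (dif_pos h)

lemma mul_pinv {i : ℕ} (h : p.Coprime i) : (i : ℤ_[p]) * pinv p i = 1 := by
  apply Subtype.coe_injective
  push_cast
  rw [coe_pinv h]
  have : (i : ℚ_[p]) ≠ 0 := by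
    intro h0
    have h1 := Padic.norm_natCast_eq_one_iff.mpr h
    rw [h0] at h1
    simp at h1
  exact mul_inv_cancel₀ this

lemma toZMod_pinv {i : ℕ} (h : p.Coprime i) :
    PadicInt.toZMod (pinv p i) = ((i : ZMod p))⁻¹ := by
  have h1 := congrArg (PadicInt.toZMod (p := p)) (mul_pinv h)
  rw [map_mul, map_natCast, map_one] at h1
  exact eq_inv_of_mul_eq_one_right h1

lemma toZMod_eq_zero_iff (z : ℤ_[p]) : PadicInt.toZMod z = 0 ↔ ∃ w : ℤ_[p], z = p * w := by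
  rw [← RingHom.mem_ker, PadicInt.ker_toZMod, PadicInt.maximalIdeal_eq_span_p,
    Ideal.mem_span_singleton]
  rfl

/-- If `p ^ e` divides the numerator of `x`, then `x ∈ p ^ e ℤ_[p]` (for `e ≥ 1`). -/
lemma exists_padic_of_dvd_num (x : ℚ) (e : ℕ) (he : 1 ≤ e) (h : ((p : ℤ) ^ e) ∣ x.num) :
    ∃ z : ℤ_[p], (x : ℚ_[p]) = (p : ℚ_[p]) ^ e * z := by
  obtain ⟨t, ht⟩ := h
  have hcop : p.Coprime x.den := by
    rw [Nat.Prime.coprime_iff_not_dvd hp.out]
    intro hd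
    have h1 : (p : ℤ) ∣ x.num := by
      rw [ht]; exact Dvd.dvd.mul_right (dvd_pow_self _ (by omega)) _
    have h2 := x.reduced
    have h3 : p ∣ x.num.natAbs := Int.natCast_dvd.mp h1
    have := Nat.dvd_gcd h3 hd
    rw [h2] at this
    exact hp.out.one_lt.ne' (Nat.dvd_one.mp this)
  refine ⟨(t : ℤ_[p]) * pinv p x.den, ?_⟩
  push_cast
  rw [coe_pinv hcop]
  conv_lhs => rw [← Rat.num_div_den x]
  push_cast
  rw [ht]
  push_cast
  rw [div_eq_mul_inv]; ring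

/-- Converse: if `x ∈ p ^ e ℤ_[p]` then `p ^ e ∣ x.num`. -/
lemma dvd_num_of_padic (x : ℚ) (e : ℕ) (z : ℤ_[p]) (h : (x : ℚ_[p]) = (p : ℚ_[p]) ^ e * z) :
    ((p : ℤ) ^ e) ∣ x.num := by
  have hden : (x.den : ℚ_[p]) ≠ 0 := by exact_mod_cast x.den_nz
  have h1 : ((x.num : ℤ) : ℚ_[p]) = (p : ℚ_[p]) ^ e * (z * x.den) := by
    have : (x : ℚ_[p]) = (x.num : ℚ_[p]) / (x.den : ℚ_[p]) := by
      conv_lhs => rw [← Rat.num_div_den x]
      push_cast; rfl
    rw [this] at h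
    field_simp at h
    rw [h]; ring
  have h2 : ‖((x.num : ℤ) : ℚ_[p])‖ ≤ (p : ℝ) ^ (-(e : ℤ)) := by
    rw [h1, norm_mul, norm_pow, Padic.norm_p]
    have h3 : ‖(z : ℚ_[p]) * (x.den : ℚ_[p])‖ ≤ 1 := by
      rw [norm_mul]
      refine mul_le_one₀ z.2 (norm_nonneg _) ?_
      have := Padic.norm_int_le_one (p := p) (x.den : ℤ)
      simpa using this
    calc ((p : ℝ)⁻¹) ^ e * ‖(z : ℚ_[p]) * (x.den : ℚ_[p])‖ ≤ ((p : ℝ)⁻¹) ^ e * 1 := by gcongr
      _ = (p : ℝ) ^ (-(e : ℤ)) := by rw [mul_one, zpow_neg, inv_pow, zpow_natCast]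
  exact_mod_cast (Padic.norm_int_le_pow_iff_dvd _ _).mp h2

/-! ### The sums `A(j, m) = ∑_{i ≤ m} 2^{i p^j} / i` -/

variable (p)

/-- `A(j, m) = ∑_{i=1}^m 2^{i p^j} / i` in `ℚ_[p]`. -/
noncomputable def A (j m : ℕ) : ℚ_[p] := ∑ i ∈ Icc 1 m, (2 : ℚ_[p]) ^ (i * p ^ j) / (i : ℚ_[p])

/-- The part of `A(j, m)` with `p ∤ i`. -/
noncomputable def U (j m : ℕ) : ℤ_[p] :=
  ∑ i ∈ (Icc 1 m).filter (fun i => ¬ p ∣ i), (2 : ℤ_[p]) ^ (i * p ^ j) * pinv p i

variable {p}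

lemma sum_Icc_filter_dvd {M : Type*} [AddCommMonoid M] (q m : ℕ) (hq : 0 < q) (f : ℕ → M) :
    ∑ i ∈ (Icc 1 m).filter (fun i => q ∣ i), f i = ∑ i ∈ Icc 1 (m / q), f (q * i) := by
  symm
  refine Finset.sum_bij (fun i _ => q * i) ?_ ?_ ?_ ?_
  · intro i hi
    rw [mem_Icc] at hi
    rw [mem_filter, mem_Icc]
    refine ⟨⟨Nat.mul_pos hq hi.1, ?_⟩, Dvd.intro _ rfl⟩
    calc q * i ≤ q * (m / q) := Nat.mul_le_mul_left q hi.2
      _ ≤ m := Nat.mul_div_le m q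
  · intro a _ b _ h
    exact Nat.eq_of_mul_eq_mul_left hq h
  · intro i hi
    rw [mem_filter, mem_Icc] at hi
    obtain ⟨⟨h1, h2⟩, ⟨c, rfl⟩⟩ := hi
    refine ⟨c, ?_, rfl⟩
    rw [mem_Icc]
    refine ⟨Nat.pos_of_mul_pos_left h1, ?_⟩
    rw [Nat.le_div_iff_mul_le hq]; linarith
  · intro _ _; rfl

lemma A_eq (j m : ℕ) : A p j m = (U p j m : ℚ_[p]) + A p (j + 1) (m / p) / p := by
  unfold A U
  rw [← Finset.sum_filter_add_sum_filter_not (Icc 1 m) (fun i => p ∣ i),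
    sum_Icc_filter_dvd (M := ℚ_[p]) p m hp.out.pos, add_comm]
  congr 1
  · rw [PadicInt.coe_sum]
    refine Finset.sum_congr rfl fun i hi => ?_
    rw [mem_filter] at hi
    push_cast
    rw [coe_pinv ((Nat.Prime.coprime_iff_not_dvd hp.out).mpr hi.2), div_eq_mul_inv]
    rfl
  · rw [Finset.sum_div]
    refine Finset.sum_congr rfl fun i hi => ?_
    push_cast
    have h1 : p * i * p ^ j = i * p ^ (j + 1) := by ring
    rw [h1, div_div]
    congr 1
    ring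

/-- `Z j m`: `A(j, m) ∈ p ℤ_[p]`. -/
def Z (p : ℕ) [Fact p.Prime] (j m : ℕ) : Prop := ∃ z : ℤ_[p], A p j m = p * (z : ℚ_[p])

lemma p_ne_zero' : (p : ℚ_[p]) ≠ 0 := by
  exact_mod_cast hp.out.ne_zero

lemma Z_zero (j : ℕ) : Z p j 0 := ⟨0, by simp [A]⟩

/-- If `A(j, m)` is integral then `Z (j+1) (m/p)`. -/
lemma Z_of_integral {j m : ℕ} (z : ℤ_[p]) (h : A p j m = (z : ℚ_[p])) : Z p (j + 1) (m / p) := by
  refine ⟨z - U p j m, ?_⟩
  rw [A_eq] at h
  have hp0 := p_ne_zero' (p := p)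
  push_cast
  field_simp at h
  linear_combination h

lemma Z_parent {j m : ℕ} (h : Z p j m) : Z p (j + 1) (m / p) := by
  obtain ⟨z, hz⟩ := h
  exact Z_of_integral ((p : ℤ_[p]) * z) (by push_cast; exact hz)

variable (p) in
/-- `s(d) = ∑_{r=1}^d 2^r / r` in `ZMod p`. -/
def s (d : ℕ) : ZMod p := ∑ r ∈ Icc 1 d, (2 : ZMod p) ^ r * ((r : ZMod p))⁻¹

lemma two_pow_p_pow (i j : ℕ) : (2 : ZMod p) ^ (i * p ^ j) = 2 ^ i := by
  induction j with
  | zero => simp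
  | succ j ih =>
    rw [pow_succ, ← mul_assoc, pow_mul, ih, ZMod.pow_card]

lemma coprime_of_lt {i : ℕ} (h1 : 1 ≤ i) (h2 : i < p) : p.Coprime i := by
  rw [Nat.Prime.coprime_iff_not_dvd hp.out]
  intro h
  exact absurd (Nat.le_of_dvd h1 h) (by omega)

lemma toZMod_U (j m d : ℕ) (hd : d < p) :
    PadicInt.toZMod (U p j (p * m + d)) = PadicInt.toZMod (U p j (p * m)) + 2 ^ m * s p d := by
  induction d with
  | zero => simp [s]
  | succ d ih =>
    have ih' := ih (by omega)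
    have hnd : ¬ p ∣ p * m + (d + 1) := by
      rw [Nat.dvd_add_right (Dvd.intro _ rfl)]
      intro h
      exact absurd (Nat.le_of_dvd (by omega) h) (by omega)
    have h1 : U p j (p * m + (d + 1)) = U p j (p * m + d)
        + (2 : ℤ_[p]) ^ ((p * m + (d + 1)) * p ^ j) * pinv p (p * m + (d + 1)) := by
      unfold U
      have h2 : (Icc 1 (p * m + (d + 1))).filter (fun i => ¬ p ∣ i)
          = insert (p * m + (d + 1)) ((Icc 1 (p * m + d)).filter (fun i => ¬ p ∣ i)) := by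
        ext i
        simp only [mem_filter, mem_Icc, mem_insert]
        constructor
        · rintro ⟨⟨h1, h2⟩, h3⟩
          rcases Nat.lt_or_ge (p * m + d) i with h4 | h4
          · left; omega
          · right; exact ⟨⟨h1, h4⟩, h3⟩
        · rintro (rfl | ⟨⟨h1, h2⟩, h3⟩)
          · exact ⟨⟨by omega, by omega⟩, hnd⟩
          · exact ⟨⟨h1, by omega⟩, h3⟩
      rw [h2, Finset.sum_insert (by simp), add_comm]
    rw [h1, map_add, ih', map_mul, toZMod_pinv ((Nat.Prime.coprime_iff_not_dvd hp.out).mpr hnd)]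
    have h3 : s p (d + 1) = s p d + (2 : ZMod p) ^ (d + 1) * ((d + 1 : ℕ) : ZMod p)⁻¹ := by
      unfold s
      rw [Finset.sum_Icc_succ_top (by omega)]
    rw [h3, map_pow, map_ofNat, two_pow_p_pow]
    have h4 : ((p * m + (d + 1) : ℕ) : ZMod p) = ((d + 1 : ℕ) : ZMod p) := by
      push_cast; simp
    rw [h4]
    have h5 : (2 : ZMod p) ^ (p * m + (d + 1)) = 2 ^ m * 2 ^ (d + 1) := by
      rw [pow_add, pow_mul, ZMod.pow_card]
    rw [h5]; ring

/-- The digit equation. For every parent `m` there is a constant `c` such that for every digit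
`d < p` with `Z j (p m + d)` one has `2^m s(d) = c`. -/
lemma digit_eq (j m : ℕ) : ∃ c : ZMod p, ∀ d : ℕ, d < p → Z p j (p * m + d) →
    2 ^ m * s p d = c := by
  by_cases hZ : Z p (j + 1) m
  · obtain ⟨w, hw⟩ := hZ
    refine ⟨-(PadicInt.toZMod (U p j (p * m)) + PadicInt.toZMod w), ?_⟩
    intro d hd hz
    obtain ⟨z, hz⟩ := hz
    rw [A_eq] at hz
    have h1 : (p * m + d) / p = m := by
      rw [Nat.mul_add_div hp.out.pos, Nat.div_eq_of_lt hd, add_zero]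
    have hp0 := p_ne_zero' (p := p)
    rw [h1, hw, mul_div_assoc, mul_comm (p : ℚ_[p]), div_mul_cancel₀ _ hp0] at hz
    have h2 : U p j (p * m + d) + w = p * z := by
      apply Subtype.coe_injective
      push_cast
      exact hz
    have h3 := congrArg (PadicInt.toZMod (p := p)) h2
    rw [map_add, toZMod_U j m d hd, map_mul, map_natCast] at h3
    simp only [CharP.cast_eq_zero, zero_mul] at h3
    linear_combination h3
  · refine ⟨0, fun d hd hz => absurd ?_ hZ⟩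
    have := Z_parent hz
    rwa [Nat.mul_add_div hp.out.pos, Nat.div_eq_of_lt hd, add_zero] at this

/-- For a one-digit number the equation is `s(d) = 0`. -/
lemma s_eq_zero_of_Z {j d : ℕ} (hd : d < p) (h : Z p j d) : s p d = 0 := by
  obtain ⟨c, hc⟩ := digit_eq (p := p) j 0
  have h0 := hc 0 hp.out.pos (by simpa using Z_zero (p := p) j)
  have h1 := hc d hd (by simpa using h)
  rw [← h0] at h1
  simpa [s] using h1

/-- If `s` has no zero in `[1, p-1]` then `Z j m` only holds for `m = 0`. -/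
lemma eq_zero_of_Z (hs : ∀ d, 1 ≤ d → d < p → s p d ≠ 0) {j m : ℕ} (h : Z p j m) : m = 0 := by
  induction m using Nat.strong_induction_on generalizing j with
  | _ m ih =>
    rcases Nat.lt_or_ge m p with hm | hm
    · by_contra h0
      exact hs m (by omega) hm (s_eq_zero_of_Z hm h)
    · have h1 := ih (m / p) (Nat.div_lt_self (by have := hp.out.pos; omega) hp.out.one_lt) (Z_parent h)
      have h2 : 1 ≤ m / p := (Nat.one_le_div_iff hp.out.pos).mpr hm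
      omega

/-! ### From `R(n)` to the digit conditions -/

lemma R_padic (n : ℕ) : ((R n : ℚ) : ℚ_[p]) = A p 0 n - 2 / (n : ℚ_[p]) := by
  unfold R A
  push_cast
  simp only [pow_zero, mul_one]
  ring

lemma A_iterate (e : ℕ) : ∀ j m : ℕ, ∃ w : ℤ_[p],
    (p : ℚ_[p]) ^ e * A p j (p ^ e * m) = (p : ℚ_[p]) * w + A p (j + e) m := by
  induction e with
  | zero => intro j m; exact ⟨0, by simp⟩
  | succ e ih =>
    intro j m
    obtain ⟨w, hw⟩ := ih (j + 1) m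
    refine ⟨(p : ℤ_[p]) ^ e * U p j (p ^ (e + 1) * m) + w, ?_⟩
    rw [A_eq]
    have hp0 := p_ne_zero' (p := p)
    have h1 : p ^ (e + 1) * m / p = p ^ e * m := by
      rw [pow_succ, mul_comm (p ^ e), mul_assoc, Nat.mul_div_cancel_left _ hp.out.pos]
    rw [h1]
    have h2 : (p : ℚ_[p]) ^ (e + 1) * ((U p j (p ^ (e + 1) * m) : ℚ_[p])
        + A p (j + 1) (p ^ e * m) / p)
        = (p : ℚ_[p]) ^ (e + 1) * (U p j (p ^ (e + 1) * m) : ℚ_[p])
          + (p : ℚ_[p]) ^ e * A p (j + 1) (p ^ e * m) := by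
      rw [mul_add]
      congr 1
      rw [pow_succ]
      field_simp
    rw [h2, hw]
    have h3 : j + (e + 1) = j + 1 + e := by ring
    rw [h3]
    push_cast
    ring

/-- Main reduction. If `n = p ^ e m` with `e ≥ 1`, `p ∤ m` and `R(n)` is `p`-integral, then
`A(e, m) - 2/m ∈ p ℤ_[p]`. -/
lemma A_sub_of_integral {e m : ℕ} (he : 1 ≤ e) (hm : p.Coprime m) (z : ℤ_[p])
    (h : ((R (p ^ e * m) : ℚ) : ℚ_[p]) = z) :
    ∃ w : ℤ_[p], A p e m = 2 * (pinv p m : ℚ_[p]) + p * w := by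
  obtain ⟨w, hw⟩ := A_iterate (p := p) e 0 m
  rw [zero_add] at hw
  rw [R_padic] at h
  have hp0 := p_ne_zero' (p := p)
  have hm0 : (m : ℚ_[p]) ≠ 0 := by
    intro h0
    have h1 := Padic.norm_natCast_eq_one_iff.mpr hm
    rw [h0] at h1
    simp at h1
  obtain ⟨k, rfl⟩ : ∃ k, e = k + 1 := ⟨e - 1, by omega⟩
  refine ⟨(p : ℤ_[p]) ^ k * z - w, ?_⟩
  have h1 : (p : ℚ_[p]) ^ (k + 1) * (2 / ((p ^ (k + 1) * m : ℕ) : ℚ_[p])) = 2 * (m : ℚ_[p])⁻¹ := by
    push_cast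
    field_simp
  rw [coe_pinv hm]
  push_cast
  have h2 : A p 0 (p ^ (k + 1) * m) = z + 2 / ((p ^ (k + 1) * m : ℕ) : ℚ_[p]) := by
    rw [← h]; ring
  rw [h2, mul_add, h1] at hw
  rw [pow_succ] at hw
  linear_combination -hw

end padic

end Pool.Agent.TwoPow
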