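import Mathlib
import Pool.Agent.TwoPow.Basic

/-!
# `R(n)` through odd binomial sums; the prime case
-/

namespace Pool.Agent.TwoPow

open Finset

lemma sum_two_pow_eq (n : ℕ) : ∑ k ∈ Icc 1 n, (2 : ℚ) ^ k / (k : ℚ)
    = ∑ j ∈ Icc 1 n, (n.choose j : ℚ) * (1 - (-1) ^ j) / (j : ℚ) := by
  induction n with
  | zero => simp
  | succ n ih =>
    rw [Finset.sum_Icc_succ_top (by omega), ih]
    have h1 : ∀ j ∈ Icc 1 (n + 1), ((n + 1).choose j : ℚ) * (1 - (-1) ^ j) / (j : ℚ)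
        = (n.choose j : ℚ) * (1 - (-1) ^ j) / (j : ℚ)
          + ((n + 1).choose j : ℚ) * (1 - (-1) ^ j) / ((n + 1 : ℕ) : ℚ) := by
      intro j hj
      rw [mem_Icc] at hj
      obtain ⟨i, rfl⟩ : ∃ i, j = i + 1 := ⟨j - 1, by omega⟩
      have h2 : ((n + 1).choose (i + 1) : ℚ) = (n.choose i : ℚ) + (n.choose (i + 1) : ℚ) := by
        rw [Nat.choose_succ_succ]; push_cast; ring
      have h3 : ((n + 1 : ℕ) : ℚ) * (n.choose i : ℚ) = ((n + 1).choose (i + 1) : ℚ) * ((i + 1 : ℕ) : ℚ) := by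
        exact_mod_cast Nat.add_one_mul_choose_eq n i
      have hn0 : ((n + 1 : ℕ) : ℚ) ≠ 0 := by positivity
      have hi0 : ((i + 1 : ℕ) : ℚ) ≠ 0 := by positivity
      have h4 : (n.choose i : ℚ) / ((i + 1 : ℕ) : ℚ) = ((n + 1).choose (i + 1) : ℚ) / ((n + 1 : ℕ) : ℚ) := by
        rw [div_eq_div_iff hi0 hn0]; linarith
      calc ((n + 1).choose (i + 1) : ℚ) * (1 - (-1) ^ (i + 1)) / ((i + 1 : ℕ) : ℚ)
          = (n.choose (i + 1) : ℚ) * (1 - (-1) ^ (i + 1)) / ((i + 1 : ℕ) : ℚ)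
            + ((n.choose i : ℚ) / ((i + 1 : ℕ) : ℚ)) * (1 - (-1) ^ (i + 1)) := by rw [h2]; ring
        _ = _ := by rw [h4]; ring
    rw [Finset.sum_congr rfl h1, Finset.sum_add_distrib]
    congr 1
    · rw [Finset.sum_Icc_succ_top (by omega)]
      simp [Nat.choose_succ_self]
    · rw [← Finset.sum_div]
      congr 1
      have h5 : ∑ j ∈ Icc 1 (n + 1), ((n + 1).choose j : ℚ) * (1 - (-1) ^ j)
          = ∑ j ∈ range (n + 1 + 1), ((n + 1).choose j : ℚ) * (1 - (-1) ^ j) := by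
        have h0 : range (n + 1 + 1) = insert 0 (Icc 1 (n + 1)) := by
          ext x; simp only [mem_range, mem_insert, mem_Icc]; omega
        rw [h0, Finset.sum_insert (by simp)]
        simp
      rw [h5]
      have h6 : ∑ j ∈ range (n + 1 + 1), ((n + 1).choose j : ℚ) = 2 ^ (n + 1) := by
        exact_mod_cast Nat.sum_range_choose (n + 1)
      have h7 : ∑ j ∈ range (n + 1 + 1), (-1 : ℚ) ^ j * ((n + 1).choose j : ℚ) = 0 := by
        have := Int.alternating_sum_range_choose_of_ne (n := n + 1) (by omega)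
        exact_mod_cast this
      have h8 : ∀ j ∈ range (n + 1 + 1), ((n + 1).choose j : ℚ) * (1 - (-1) ^ j)
          = ((n + 1).choose j : ℚ) - (-1 : ℚ) ^ j * ((n + 1).choose j : ℚ) := by
        intro j _; ring
      rw [Finset.sum_congr rfl h8, Finset.sum_sub_distrib, h6, h7, sub_zero]

/-- For odd `n`: `R(n) = n * ∑_{j<n} C(n-1, j-1) (1 - (-1)^j) / j^2`. -/
lemma R_odd {n : ℕ} (hn : Odd n) : R n = (n : ℚ) * ∑ j ∈ Icc 1 (n - 1),
    ((n - 1).choose (j - 1) : ℚ) * (1 - (-1) ^ j) / (j : ℚ) ^ 2 := by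
  obtain ⟨k, rfl⟩ := hn
  unfold R
  rw [sum_two_pow_eq, Finset.sum_Icc_succ_top (by omega), Nat.choose_self]
  have h1 : (-1 : ℚ) ^ (2 * k + 1) = -1 := by
    rw [pow_succ, pow_mul]; simp
  rw [h1]
  have h2 : -2 / ((2 * k + 1 : ℕ) : ℚ) + (∑ j ∈ Icc 1 (2 * k),
      ((2 * k + 1).choose j : ℚ) * (1 - (-1) ^ j) / (j : ℚ)
      + ((1 : ℕ) : ℚ) * (1 - -1) / ((2 * k + 1 : ℕ) : ℚ))
      = ∑ j ∈ Icc 1 (2 * k), ((2 * k + 1).choose j : ℚ) * (1 - (-1) ^ j) / (j : ℚ) := by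
    have : ((2 * k + 1 : ℕ) : ℚ) ≠ 0 := by positivity
    field_simp
    push_cast
    ring
  rw [h2, Finset.mul_sum]
  have h3 : 2 * k + 1 - 1 = 2 * k := by omega
  rw [h3]
  refine Finset.sum_congr rfl fun j hj => ?_
  rw [mem_Icc] at hj
  obtain ⟨i, rfl⟩ : ∃ i, j = i + 1 := ⟨j - 1, by omega⟩
  have h4 : i + 1 - 1 = i := by omega
  rw [h4]
  have h5 : ((2 * k + 1 : ℕ) : ℚ) * ((2 * k).choose i : ℚ)
      = ((2 * k + 1).choose (i + 1) : ℚ) * ((i + 1 : ℕ) : ℚ) := by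
    exact_mod_cast Nat.add_one_mul_choose_eq (2 * k) i
  have hi0 : ((i + 1 : ℕ) : ℚ) ≠ 0 := by positivity
  field_simp
  linear_combination -(1 - (-1 : ℚ) ^ (i + 1)) * h5

variable {p : ℕ} [hp : Fact p.Prime]

/-- `C(p-1, i) = (-1)^i` in `ZMod p`. -/
lemma choose_pred_zmod (i : ℕ) (hi : i < p) : (((p - 1).choose i : ℕ) : ZMod p) = (-1) ^ i := by
  induction i with
  | zero => simp
  | succ i ih =>
    have hp1 : p - 1 + 1 = p := Nat.sub_add_cancel hp.out.one_lt.le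
    have h1 : ((p.choose (i + 1) : ℕ) : ZMod p) = 0 := by
      rw [ZMod.natCast_eq_zero_iff]
      exact hp.out.dvd_choose_self (by omega) hi
    have h2 : p.choose (i + 1) = (p - 1).choose i + (p - 1).choose (i + 1) := by
      conv_lhs => rw [← hp1]
      rw [Nat.choose_succ_succ]
    rw [h2] at h1
    push_cast at h1
    rw [ih (by omega)] at h1
    rw [pow_succ]
    linear_combination h1

/-- Reflection for sums over `1 ≤ j < p`. -/
lemma sum_reflect {M : Type*} [AddCommMonoid M] (f : ℕ → M) :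
    ∑ j ∈ Icc 1 (p - 1), f (p - j) = ∑ j ∈ Icc 1 (p - 1), f j := by
  have hp2 := hp.out.two_le
  refine Finset.sum_nbij' (fun j => p - j) (fun j => p - j) ?_ ?_ ?_ ?_ ?_
  · intro j hj; simp only [mem_Icc] at hj ⊢; omega
  · intro j hj; simp only [mem_Icc] at hj ⊢; omega
  · intro j hj; simp only [mem_Icc] at hj; omega
  · intro j hj; simp only [mem_Icc] at hj; omega
  · intro j _; rfl

lemma two_ne_zero_zmod (h3 : 3 ≤ p) : (2 : ZMod p) ≠ 0 := by
  intro h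
  have h1 : ((2 : ℕ) : ZMod p) = 0 := by exact_mod_cast h
  rw [ZMod.natCast_eq_zero_iff] at h1
  exact absurd (Nat.le_of_dvd (by norm_num) h1) (by omega)

lemma cast_sub_zmod {j : ℕ} (hj : j ≤ p) : ((p - j : ℕ) : ZMod p) = -(j : ZMod p) := by
  rw [Nat.cast_sub hj]; simp

/-- `∑ 1/j^2 = 0` in `ZMod p` for `p > 3`. -/
lemma sum_inv_sq (h3 : 3 < p) : ∑ j ∈ Icc 1 (p - 1), ((j : ZMod p) ^ 2)⁻¹ = 0 := by
  -- multiply by 4: j ↦ 2 j permutes the nonzero residues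
  have h1 : ∑ j ∈ Icc 1 (p - 1), ((j : ZMod p) ^ 2)⁻¹ = ∑ x ∈ univ.erase (0 : ZMod p), (x ^ 2)⁻¹ := by
    refine Finset.sum_nbij' (fun j => (j : ZMod p)) (fun x => ZMod.val x) ?_ ?_ ?_ ?_ ?_
    · intro j hj
      rw [mem_Icc] at hj
      rw [mem_erase]
      refine ⟨?_, mem_univ _⟩
      intro h
      rw [ZMod.natCast_eq_zero_iff] at h
      exact absurd (Nat.le_of_dvd (by omega) h) (by have := hp.out.two_le; omega)
    · intro x hx
      rw [mem_erase] at hx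
      rw [mem_Icc]
      have h1 := ZMod.val_lt x
      have h2 : ZMod.val x ≠ 0 := by
        intro h; exact hx.1 ((ZMod.val_eq_zero x).mp h)
      omega
    · intro j hj
      rw [mem_Icc] at hj
      exact ZMod.val_cast_of_lt (by have := hp.out.two_le; omega)
    · intro x _; exact ZMod.natCast_zmod_val x
    · intro j _; rfl
  have h2 : ∑ x ∈ univ.erase (0 : ZMod p), (x ^ 2)⁻¹
      = ∑ x ∈ univ.erase (0 : ZMod p), ((2 * x) ^ 2)⁻¹ := by
    have h20 := two_ne_zero_zmod (p := p) (by omega)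
    symm
    refine Finset.sum_nbij' (fun x => 2 * x) (fun x => 2⁻¹ * x) ?_ ?_ ?_ ?_ ?_
    · intro x hx; rw [mem_erase] at hx ⊢; exact ⟨mul_ne_zero h20 hx.1, mem_univ _⟩
    · intro x hx; rw [mem_erase] at hx ⊢; exact ⟨mul_ne_zero (inv_ne_zero h20) hx.1, mem_univ _⟩
    · intro x _; field_simp
    · intro x _; field_simp
    · intro x _; rfl
  have h3' : ∑ x ∈ univ.erase (0 : ZMod p), ((2 * x) ^ 2)⁻¹
      = 4⁻¹ * ∑ x ∈ univ.erase (0 : ZMod p), (x ^ 2)⁻¹ := by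
    rw [Finset.mul_sum]
    refine Finset.sum_congr rfl fun x _ => ?_
    rw [mul_pow, mul_inv]; norm_num
  rw [h1]
  set X := ∑ x ∈ univ.erase (0 : ZMod p), (x ^ 2)⁻¹ with hX
  have h4 : X = 4⁻¹ * X := h2.trans h3'
  have h40 : (4 : ZMod p) ≠ 0 := by
    intro h
    have h5 : (2 : ZMod p) * 2 = 0 := by rw [← h]; norm_num
    exact two_ne_zero_zmod (p := p) (by omega) (mul_self_eq_zero.mp h5)
  have h5 : (3 : ZMod p) * X = 0 := by
    have : 4 * X = X := by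
      calc 4 * X = 4 * (4⁻¹ * X) := by rw [← h4]
        _ = X := by rw [← mul_assoc, mul_inv_cancel₀ h40, one_mul]
    linear_combination this
  have h30 : (3 : ZMod p) ≠ 0 := by
    intro h
    have h6 : ((3 : ℕ) : ZMod p) = 0 := by exact_mod_cast h
    rw [ZMod.natCast_eq_zero_iff] at h6
    exact absurd (Nat.le_of_dvd (by norm_num) h6) (by omega)
  exact (mul_eq_zero.mp h5).resolve_left h30

lemma sum_alt_inv_sq (h3 : 3 ≤ p) :
    ∑ j ∈ Icc 1 (p - 1), (-1 : ZMod p) ^ (j - 1) * ((j : ZMod p) ^ 2)⁻¹ = 0 := by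
  set X := ∑ j ∈ Icc 1 (p - 1), (-1 : ZMod p) ^ (j - 1) * ((j : ZMod p) ^ 2)⁻¹ with hX
  have hodd : Odd p := hp.out.odd_of_ne_two (by omega)
  have h1 : X = -X := by
    conv_lhs => rw [hX, ← sum_reflect]
    rw [hX, ← Finset.sum_neg_distrib]
    refine Finset.sum_congr rfl fun j hj => ?_
    rw [mem_Icc] at hj
    rw [cast_sub_zmod (by omega)]
    obtain ⟨i, rfl⟩ : ∃ i, j = i + 1 := ⟨j - 1, by omega⟩
    obtain ⟨k, hk⟩ := hodd
    have e1 : (-1 : ZMod p) ^ (p - (i + 1) - 1) = -(-1) ^ (i + 1 - 1) := by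
      have e2 : i + 1 - 1 = i := by omega
      have e3 : (-1 : ZMod p) ^ (p - (i + 1) - 1) * (-1) ^ i = -1 := by
        rw [← pow_add]
        have : p - (i + 1) - 1 + i = 2 * (k - 1) + 1 := by omega
        rw [this, pow_succ, pow_mul]; simp
      have e4 : (-1 : ZMod p) ^ i * (-1) ^ i = 1 := by
        rw [← mul_pow]; simp
      rw [e2]
      linear_combination (-1 : ZMod p) ^ i * e3 - (-1 : ZMod p) ^ (p - (i + 1) - 1) * e4
    rw [e1]
    ring
  have h2 : (2 : ZMod p) * X = 0 := by linear_combination h1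
  exact (mul_eq_zero.mp h2).resolve_left (two_ne_zero_zmod h3)

variable (p) in
/-- The `p`-adic integer `R(p)/p`. -/
noncomputable def W : ℤ_[p] := ∑ j ∈ Icc 1 (p - 1),
  ((p - 1).choose (j - 1) : ℤ_[p]) * (1 - (-1) ^ j) * (pinv p j) ^ 2

lemma R_prime_padic (h2 : p ≠ 2) : ((R p : ℚ) : ℚ_[p]) = p * (W p : ℚ_[p]) := by
  rw [R_odd (hp.out.odd_of_ne_two h2)]
  unfold W
  push_cast
  congr 1
  rw [PadicInt.coe_sum]
  refine Finset.sum_congr rfl fun j hj => ?_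
  rw [mem_Icc] at hj
  have hcop : p.Coprime j := coprime_of_lt hj.1 (by have := hp.out.two_le; omega)
  push_cast
  rw [coe_pinv hcop]
  field_simp

lemma toZMod_W (h3 : 3 < p) : PadicInt.toZMod (W p) = 0 := by
  unfold W
  rw [map_sum]
  have h1 : ∀ j ∈ Icc 1 (p - 1), PadicInt.toZMod
      (((p - 1).choose (j - 1) : ℤ_[p]) * (1 - (-1) ^ j) * (pinv p j) ^ 2)
      = (-1 : ZMod p) ^ (j - 1) * ((j : ZMod p) ^ 2)⁻¹ + ((j : ZMod p) ^ 2)⁻¹ := by
    intro j hj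
    rw [mem_Icc] at hj
    have hcop : p.Coprime j := coprime_of_lt hj.1 (by have := hp.out.two_le; omega)
    rw [map_mul, map_mul, map_natCast, map_sub, map_pow, map_pow, map_neg, map_one,
      toZMod_pinv hcop, choose_pred_zmod (j - 1) (by omega)]
    obtain ⟨i, rfl⟩ : ∃ i, j = i + 1 := ⟨j - 1, by omega⟩
    have e2 : i + 1 - 1 = i := by omega
    rw [e2, inv_pow, pow_succ (-1 : ZMod p) i]
    have e4 : (-1 : ZMod p) ^ i * (-1) ^ i = 1 := by
      rw [← mul_pow]; simp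
    linear_combination (((i + 1 : ℕ) : ZMod p) ^ 2)⁻¹ * e4
  rw [Finset.sum_congr rfl h1, Finset.sum_add_distrib, sum_alt_inv_sq (by omega), sum_inv_sq h3,
    add_zero]

/-- For a prime `p > 3`, `p ^ 2` divides the numerator of `R(p)`. -/
theorem sq_dvd_numR_of_prime (h3 : 3 < p) : (p : ℤ) ^ 2 ∣ numR p := by
  obtain ⟨w, hw⟩ := (toZMod_eq_zero_iff (W p)).mp (toZMod_W h3)
  apply dvd_num_of_padic (R p) 2 w
  rw [R_prime_padic (by omega), hw]
  push_cast
  ring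

end Pool.Agent.TwoPow
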