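import Mathlib
import Pool.Agent.TwoPow.PrimeCase

/-!
# Prime powers

If `e ≥ 2` and `(p^e)^2` divides the numerator of `R(p^e)`, then `p^4` divides the numerator of
`R(p)`.
-/

namespace Pool.Agent.TwoPow

open Finset

variable {p : ℕ} [hp : Fact p.Prime]

lemma norm_add_le_of {x y : ℚ_[p]} {c : ℝ} (hx : ‖x‖ ≤ c) (hy : ‖y‖ ≤ c) : ‖x + y‖ ≤ c :=
  (Padic.nonarchimedean x y).trans (max_le hx hy)

lemma norm_sub_le_of {x y : ℚ_[p]} {c : ℝ} (hx : ‖x‖ ≤ c) (hy : ‖y‖ ≤ c) : ‖x - y‖ ≤ c := by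
  rw [sub_eq_add_neg]; exact norm_add_le_of hx (by rwa [norm_neg])

lemma norm_sum_le_of {ι : Type*} (s : Finset ι) (f : ι → ℚ_[p]) {c : ℝ} (hc : 0 ≤ c)
    (h : ∀ i ∈ s, ‖f i‖ ≤ c) : ‖∑ i ∈ s, f i‖ ≤ c :=
  IsUltrametricDist.norm_sum_le_of_forall_le_of_nonneg hc h

lemma norm_natCast_le (n : ℕ) : ‖(n : ℚ_[p])‖ ≤ 1 := by
  have := Padic.norm_int_le_one (p := p) (n : ℤ)
  simpa using this

lemma norm_neg_one_pow (n : ℕ) : ‖(-1 : ℚ_[p]) ^ n‖ = 1 := by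
  rw [norm_pow, norm_neg, norm_one, one_pow]

/-- `‖∏ (1 - x_l) - 1‖ ≤ c ^ 3` if `‖x_l‖ ≤ c ^ 2` and `‖∑ x_l‖ ≤ c ^ 3`, `0 ≤ c ≤ 1`. -/
lemma norm_prod_sub_one_le {ι : Type*} (s : Finset ι) (x : ι → ℚ_[p]) {c : ℝ} (hc0 : 0 ≤ c)
    (hc1 : c ≤ 1) (hx : ∀ i ∈ s, ‖x i‖ ≤ c ^ 2) (hsum : ‖∑ i ∈ s, x i‖ ≤ c ^ 3) :
    ‖∏ i ∈ s, (1 - x i) - 1‖ ≤ c ^ 3 := by
  classical
  have key : ∀ t : Finset ι, (∀ i ∈ t, ‖x i‖ ≤ c ^ 2) →
      ‖∏ i ∈ t, (1 - x i) - (1 - ∑ i ∈ t, x i)‖ ≤ c ^ 4 := by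
    intro t
    induction t using Finset.induction_on with
    | empty => intro _; simp; positivity
    | insert i t hi ih =>
      intro h
      have ih' := ih (fun j hj => h j (mem_insert_of_mem hj))
      have hi' := h i (mem_insert_self i t)
      rw [Finset.prod_insert hi, Finset.sum_insert hi]
      have e1 : (1 - x i) * ∏ j ∈ t, (1 - x j) - (1 - (x i + ∑ j ∈ t, x j))
          = (1 - x i) * (∏ j ∈ t, (1 - x j) - (1 - ∑ j ∈ t, x j)) + x i * ∑ j ∈ t, x j := by ring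
      rw [e1]
      have hc2 : c ^ 2 ≤ 1 := pow_le_one₀ hc0 hc1
      apply norm_add_le_of
      · rw [norm_mul]
        calc ‖1 - x i‖ * _ ≤ 1 * c ^ 4 := by
              apply mul_le_mul _ ih' (norm_nonneg _) zero_le_one
              exact norm_sub_le_of (by simp) (hi'.trans hc2)
          _ = c ^ 4 := one_mul _
      · rw [norm_mul]
        have h2 : ‖∑ j ∈ t, x j‖ ≤ c ^ 2 :=
          norm_sum_le_of t _ (by positivity) (fun j hj => h j (mem_insert_of_mem hj))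
        calc ‖x i‖ * ‖∑ j ∈ t, x j‖ ≤ c ^ 2 * c ^ 2 := by
              apply mul_le_mul hi' h2 (norm_nonneg _) (by positivity)
          _ = c ^ 4 := by ring
  have h1 := key s hx
  have h2 : c ^ 4 ≤ c ^ 3 := pow_le_pow_of_le_one hc0 hc1 (by norm_num)
  have e2 : ∏ i ∈ s, (1 - x i) - 1 = (∏ i ∈ s, (1 - x i) - (1 - ∑ i ∈ s, x i)) - ∑ i ∈ s, x i := by
    ring
  rw [e2]
  exact norm_sub_le_of (h1.trans h2) hsum

/-- Product formula for binomial coefficients. -/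
lemma choose_eq_prod (M r : ℕ) (hr : r ≤ M) :
    ((M.choose r : ℕ) : ℚ_[p]) = ∏ l ∈ Icc 1 r, (((M + 1 : ℕ) : ℚ_[p]) - l) / l := by
  induction r with
  | zero => simp
  | succ r ih =>
    rw [Finset.prod_Icc_succ_top (by omega), ← ih (by omega)]
    have h1 : (M.choose (r + 1) : ℚ_[p]) * ((r + 1 : ℕ) : ℚ_[p])
        = (M.choose r : ℚ_[p]) * ((M - r : ℕ) : ℚ_[p]) := by
      exact_mod_cast Nat.choose_succ_right_eq M r
    have h0 : ((r + 1 : ℕ) : ℚ_[p]) ≠ 0 := by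
      have : ((r : ℚ_[p]) + 1) ≠ 0 := by exact_mod_cast Nat.succ_ne_zero r
      exact_mod_cast this
    rw [← mul_div_assoc, eq_div_iff h0, h1]
    congr 1
    rw [Nat.cast_sub (by omega)]
    push_cast; ring

section level

variable (p) (k : ℕ)

/-- the real number `p ^ (k+1)` -/
noncomputable def Q : ℝ := (p : ℝ) ^ (k + 1)

variable {p k}

lemma p_real_pos : (0 : ℝ) < p := by exact_mod_cast hp.out.pos

lemma one_lt_p_real : (1 : ℝ) < p := by exact_mod_cast hp.out.one_lt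

lemma Q_pos : 0 < Q p k := by
  unfold Q
  have := p_real_pos (p := p)
  positivity

lemma c_lt_one : (p : ℝ)⁻¹ < 1 := inv_lt_one_of_one_lt₀ one_lt_p_real

lemma norm_q : ‖((p ^ (k + 1) : ℕ) : ℚ_[p])‖ = (Q p k)⁻¹ := by
  unfold Q
  push_cast
  rw [norm_pow, Padic.norm_p, inv_pow]

lemma norm_N : ‖((p ^ (k + 2) : ℕ) : ℚ_[p])‖ = (Q p k)⁻¹ * (p : ℝ)⁻¹ := by
  unfold Q
  push_cast
  rw [norm_pow, Padic.norm_p, pow_succ, inv_pow]

/-- If `p ^ (k+1) ∤ l` then `‖l‖ ≥ p ^ (-k)`. -/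
lemma le_norm_of_not_dvd {l : ℕ} (h : ¬ p ^ (k + 1) ∣ l) : (Q p k)⁻¹ ≤ (p : ℝ)⁻¹ * ‖(l : ℚ_[p])‖ := by
  have hp0 := p_real_pos (p := p)
  by_contra hcon
  push Not at hcon
  apply h
  have h1 : ‖(l : ℚ_[p])‖ < (p : ℝ) ^ (-(k : ℤ)) := by
    have h2 : (p : ℝ)⁻¹ * ‖(l : ℚ_[p])‖ < (p : ℝ)⁻¹ * (p : ℝ) ^ (-(k : ℤ)) := by
      refine hcon.trans_le (le_of_eq ?_)
      unfold Q
      rw [zpow_neg, zpow_natCast, pow_succ, mul_inv]
      ring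
    exact lt_of_mul_lt_mul_left h2 (by positivity)
  rw [Padic.norm_lt_pow_iff_norm_le_pow_sub_one] at h1
  have h3 : (-(k : ℤ) - 1) = -((k + 1 : ℕ) : ℤ) := by push_cast; ring
  rw [h3] at h1
  have h4 := (Padic.norm_int_le_pow_iff_dvd (l : ℤ) (k + 1)).mp (by push_cast; simpa using h1)
  exact_mod_cast h4

/-- Comparison of `(q/x)^2` and `(q/y)^2`. -/
lemma norm_sq_sub_sq_le {x y : ℚ_[p]} (hx : (Q p k)⁻¹ ≤ (p : ℝ)⁻¹ * ‖x‖)
    (hxy : ‖x - y‖ ≤ (Q p k)⁻¹) :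
    ‖(((p ^ (k + 1) : ℕ) : ℚ_[p]) / x) ^ 2 - (((p ^ (k + 1) : ℕ) : ℚ_[p]) / y) ^ 2‖
      ≤ ((p : ℝ)⁻¹) ^ 3 := by
  have hQ := Q_pos (p := p) (k := k)
  have hQi : 0 < (Q p k)⁻¹ := inv_pos.mpr hQ
  have hp0 := p_real_pos (p := p)
  have hc1 := c_lt_one (p := p)
  have hc0 : 0 < (p : ℝ)⁻¹ := inv_pos.mpr hp0
  have hxpos : 0 < ‖x‖ := by
    by_contra h
    have : ‖x‖ = 0 := le_antisymm (not_lt.mp h) (norm_nonneg _)
    rw [this, mul_zero] at hx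
    linarith
  have hlt : ‖x - y‖ < ‖x‖ := by
    calc ‖x - y‖ ≤ (p : ℝ)⁻¹ * ‖x‖ := hxy.trans hx
      _ < 1 * ‖x‖ := by gcongr
      _ = ‖x‖ := one_mul _
  have hy : ‖y‖ = ‖x‖ := by
    have e1 : y = x + -(x - y) := by ring
    have hne : ‖x‖ ≠ ‖-(x - y)‖ := by rw [norm_neg]; exact hlt.ne'
    rw [e1, Padic.add_eq_max_of_ne hne, norm_neg, max_eq_left hlt.le]
  have hx0 : x ≠ 0 := norm_pos_iff.mp hxpos
  have hy0 : y ≠ 0 := by rw [← norm_pos_iff, hy]; exact hxpos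
  have e2 : (((p ^ (k + 1) : ℕ) : ℚ_[p]) / x) ^ 2 - (((p ^ (k + 1) : ℕ) : ℚ_[p]) / y) ^ 2
      = ((p ^ (k + 1) : ℕ) : ℚ_[p]) ^ 2 * (-(x - y)) * (y + x) * (x⁻¹) ^ 2 * (y⁻¹) ^ 2 := by
    field_simp
    ring
  rw [e2, norm_mul, norm_mul, norm_mul, norm_mul, norm_pow, norm_pow, norm_pow, norm_neg, norm_inv,
    norm_inv, norm_q, hy]
  have hyx : ‖y + x‖ ≤ ‖x‖ := norm_add_le_of hy.le le_rfl
  calc (Q p k)⁻¹ ^ 2 * ‖x - y‖ * ‖y + x‖ * ‖x‖⁻¹ ^ 2 * ‖x‖⁻¹ ^ 2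
      ≤ (Q p k)⁻¹ ^ 2 * (Q p k)⁻¹ * ‖x‖ * ‖x‖⁻¹ ^ 2 * ‖x‖⁻¹ ^ 2 := by gcongr
    _ = ((Q p k)⁻¹ * ‖x‖⁻¹) ^ 3 := by field_simp
    _ ≤ ((p : ℝ)⁻¹ * ‖x‖ * ‖x‖⁻¹) ^ 3 := by gcongr
    _ = ((p : ℝ)⁻¹) ^ 3 := by field_simp

lemma norm_two (hp2 : p ≠ 2) : ‖(2 : ℚ_[p])‖ = 1 := by
  have h := Padic.norm_natCast_eq_one_iff (p := p) (n := 2)
  have h2 : p.Coprime 2 := (Nat.coprime_primes hp.out Nat.prime_two).mpr hp2
  have := h.mpr h2
  exact_mod_cast this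

lemma norm_le_of_two_mul {x : ℚ_[p]} (hp2 : p ≠ 2) {c : ℝ} (h : ‖2 * x‖ ≤ c) : ‖x‖ ≤ c := by
  rwa [norm_mul, norm_two hp2, one_mul] at h

/-- `C(p^e - 1, j) = (-1)^j` in `ZMod p`. -/
lemma choose_pred_pow_zmod (e i : ℕ) (hi : i < p ^ e) :
    (((p ^ e - 1).choose i : ℕ) : ZMod p) = (-1) ^ i := by
  induction i with
  | zero => simp
  | succ i ih =>
    have hp1 : p ^ e - 1 + 1 = p ^ e := Nat.sub_add_cancel (Nat.pow_pos hp.out.pos)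
    have h1 : (((p ^ e).choose (i + 1) : ℕ) : ZMod p) = 0 := by
      rw [ZMod.natCast_eq_zero_iff]
      exact hp.out.dvd_choose_pow (by omega) (by omega)
    have h2 : (p ^ e).choose (i + 1) = (p ^ e - 1).choose i + (p ^ e - 1).choose (i + 1) := by
      conv_lhs => rw [← hp1]
      rw [Nat.choose_succ_succ]
    rw [h2] at h1
    push_cast at h1
    rw [ih (by omega)] at h1
    rw [pow_succ]
    linear_combination h1

lemma norm_choose_sub_le (e i : ℕ) (hi : i < p ^ e) :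
    ‖(((p ^ e - 1).choose i : ℕ) : ℚ_[p]) - (-1) ^ i‖ ≤ (p : ℝ)⁻¹ := by
  have h1 := choose_pred_pow_zmod (p := p) e i hi
  have h2 : (p : ℤ) ^ 1 ∣ (((p ^ e - 1).choose i : ℕ) : ℤ) - (-1) ^ i := by
    rw [pow_one, ← ZMod.intCast_zmod_eq_zero_iff_dvd]
    push_cast
    rw [h1, sub_self]
  have h3 := (Padic.norm_int_le_pow_iff_dvd _ _).mpr h2
  have h4 : (p : ℝ) ^ (-((1 : ℕ) : ℤ)) = (p : ℝ)⁻¹ := by simp
  rw [h4] at h3
  refine le_trans (le_of_eq ?_) h3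
  push_cast
  rfl

lemma prod_Icc_filter_dvd {M : Type*} [CommMonoid M] (q m : ℕ) (hq : 0 < q) (f : ℕ → M) :
    ∏ i ∈ (Icc 1 m).filter (fun i => q ∣ i), f i = ∏ i ∈ Icc 1 (m / q), f (q * i) := by
  symm
  refine Finset.prod_bij (fun i _ => q * i) ?_ ?_ ?_ ?_
  · intro i hi
    rw [mem_Icc] at hi
    rw [mem_filter, mem_Icc]
    refine ⟨⟨Nat.mul_pos hq hi.1, ?_⟩, Dvd.intro _ rfl⟩
    calc q * i ≤ q * (m / q) := Nat.mul_le_mul_left q hi.2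
      _ ≤ m := Nat.mul_div_le m q
  · intro a _ b _ h
    exact Nat.eq_of_mul_eq_mul_left hq h
  · intro i hi
    rw [mem_filter, mem_Icc] at hi
    obtain ⟨⟨h1, h2⟩, ⟨c, rfl⟩⟩ := hi
    refine ⟨c, ?_, rfl⟩
    rw [mem_Icc]
    refine ⟨Nat.pos_of_mul_pos_left h1, ?_⟩
    rw [Nat.le_div_iff_mul_le hq]; linarith
  · intro _ _; rfl

lemma sub_one_div {q i : ℕ} (hq : 0 < q) (hi : 1 ≤ i) : (q * i - 1) / q = i - 1 := by
  obtain ⟨i, rfl⟩ : ∃ i', i = i' + 1 := ⟨i - 1, by omega⟩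
  have h1 : q * (i + 1) - 1 = q * i + (q - 1) := by
    rw [mul_add, mul_one]; omega
  rw [h1, Nat.mul_add_div hq, Nat.div_eq_of_lt (by omega)]
  omega

lemma natCast_ne_zero_padic {n : ℕ} (h : n ≠ 0) : (n : ℚ_[p]) ≠ 0 := by exact_mod_cast h

/-- The sum of `N / l` over `l < q i`, `q ∤ l`. -/
lemma norm_sum_N_div_le (hp2 : p ≠ 2) (i : ℕ) :
    ‖∑ l ∈ (Icc 1 (p ^ (k + 1) * i - 1)).filter (fun l => ¬ p ^ (k + 1) ∣ l),
      ((p ^ (k + 2) : ℕ) : ℚ_[p]) / l‖ ≤ ((p : ℝ)⁻¹) ^ 3 := by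
  apply norm_le_of_two_mul hp2
  set q := p ^ (k + 1) with hq
  have hq0 : 0 < q := Nat.pow_pos hp.out.pos
  set L := (Icc 1 (q * i - 1)).filter (fun l => ¬ q ∣ l) with hL
  have hrefl : ∑ l ∈ L, ((p ^ (k + 2) : ℕ) : ℚ_[p]) / ((q * i - l : ℕ) : ℚ_[p])
      = ∑ l ∈ L, ((p ^ (k + 2) : ℕ) : ℚ_[p]) / l := by
    refine Finset.sum_nbij' (fun l => q * i - l) (fun l => q * i - l) ?_ ?_ ?_ ?_ ?_
    · intro l hl
      simp only [hL, mem_filter, mem_Icc] at hl ⊢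
      refine ⟨by omega, fun h => hl.2 ?_⟩
      have h1 : l = q * i - (q * i - l) := by omega
      rw [h1]; exact Nat.dvd_sub (Dvd.intro _ rfl) h
    · intro l hl
      simp only [hL, mem_filter, mem_Icc] at hl ⊢
      refine ⟨by omega, fun h => hl.2 ?_⟩
      have h1 : l = q * i - (q * i - l) := by omega
      rw [h1]; exact Nat.dvd_sub (Dvd.intro _ rfl) h
    · intro l hl; simp only [hL, mem_filter, mem_Icc] at hl; omega
    · intro l hl; simp only [hL, mem_filter, mem_Icc] at hl; omega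
    · intro l _; rfl
  have e1 : 2 * ∑ l ∈ L, ((p ^ (k + 2) : ℕ) : ℚ_[p]) / l
      = ∑ l ∈ L, (((p ^ (k + 2) : ℕ) : ℚ_[p]) / l
        + ((p ^ (k + 2) : ℕ) : ℚ_[p]) / ((q * i - l : ℕ) : ℚ_[p])) := by
    rw [Finset.sum_add_distrib, hrefl]; ring
  rw [e1]
  have hp0 := p_real_pos (p := p)
  apply norm_sum_le_of _ _ (by positivity)
  intro l hl
  simp only [hL, mem_filter, mem_Icc] at hl
  have hnd2 : ¬ q ∣ q * i - l := by
    intro h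
    apply hl.2
    have h1 : l = q * i - (q * i - l) := by omega
    rw [h1]; exact Nat.dvd_sub (Dvd.intro _ rfl) h
  have n1 := le_norm_of_not_dvd (p := p) (k := k) hl.2
  have n2 := le_norm_of_not_dvd (p := p) (k := k) hnd2
  have l0 := natCast_ne_zero_padic (p := p) (n := l) (by omega)
  have l1 := natCast_ne_zero_padic (p := p) (n := q * i - l) (by omega)
  have e2 : ((p ^ (k + 2) : ℕ) : ℚ_[p]) / l
        + ((p ^ (k + 2) : ℕ) : ℚ_[p]) / ((q * i - l : ℕ) : ℚ_[p])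
      = ((p ^ (k + 2) : ℕ) : ℚ_[p]) * ((q : ℕ) : ℚ_[p]) * (i : ℚ_[p]) * (l : ℚ_[p])⁻¹
        * ((q * i - l : ℕ) : ℚ_[p])⁻¹ := by
    have : ((q * i - l : ℕ) : ℚ_[p]) = (q : ℚ_[p]) * i - l := by
      rw [Nat.cast_sub (by omega)]; push_cast; ring
    field_simp
    rw [this]; ring
  rw [e2, norm_mul, norm_mul, norm_mul, norm_mul, norm_inv, norm_inv, norm_N, hq, norm_q]
  have hQ := Q_pos (p := p) (k := k)
  have m1 : 0 < ‖(l : ℚ_[p])‖ := norm_pos_iff.mpr l0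
  have m2 : 0 < ‖((q * i - l : ℕ) : ℚ_[p])‖ := norm_pos_iff.mpr l1
  have b1 : (Q p k)⁻¹ * ‖(l : ℚ_[p])‖⁻¹ ≤ (p : ℝ)⁻¹ := by
    rw [← div_eq_mul_inv, div_le_iff₀ m1]; exact n1
  have b2 : (Q p k)⁻¹ * ‖((q * i - l : ℕ) : ℚ_[p])‖⁻¹ ≤ (p : ℝ)⁻¹ := by
    rw [← div_eq_mul_inv, div_le_iff₀ m2]; exact n2
  have b3 := norm_natCast_le (p := p) i
  rw [← hq]
  calc (Q p k)⁻¹ * (p : ℝ)⁻¹ * (Q p k)⁻¹ * ‖(i : ℚ_[p])‖ * ‖(l : ℚ_[p])‖⁻¹
        * ‖((q * i - l : ℕ) : ℚ_[p])‖⁻¹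
      = (p : ℝ)⁻¹ * ((Q p k)⁻¹ * ‖(l : ℚ_[p])‖⁻¹) * ((Q p k)⁻¹ * ‖((q * i - l : ℕ) : ℚ_[p])‖⁻¹)
        * ‖(i : ℚ_[p])‖ := by ring
    _ ≤ (p : ℝ)⁻¹ * (p : ℝ)⁻¹ * (p : ℝ)⁻¹ * 1 := by gcongr
    _ = ((p : ℝ)⁻¹) ^ 3 := by ring

/-- Claim A: `C(p^e - 1, p^{e-1} i - 1) ≡ C(p - 1, i - 1) mod p^3`. -/
lemma norm_choose_sub_choose_le (hp2 : p ≠ 2) (i : ℕ) (hi : 1 ≤ i) (hip : i < p) :
    ‖(((p ^ (k + 2) - 1).choose (p ^ (k + 1) * i - 1) : ℕ) : ℚ_[p])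
      - (((p - 1).choose (i - 1) : ℕ) : ℚ_[p])‖ ≤ ((p : ℝ)⁻¹) ^ 3 := by
  set q := p ^ (k + 1) with hq
  have hq0 : 0 < q := Nat.pow_pos hp.out.pos
  have hN : p ^ (k + 2) = q * p := by rw [hq, ← pow_succ]
  have hp0 := p_real_pos (p := p)
  have hqi : q * i ≤ q * p := Nat.mul_le_mul_left q hip.le
  have hqi' : q * i < q * p := Nat.mul_lt_mul_of_pos_left hip hq0
  have hodd := hp.out.odd_of_ne_two hp2
  rw [choose_eq_prod _ _ (by rw [hN]; omega)]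
  have hN1 : p ^ (k + 2) - 1 + 1 = p ^ (k + 2) := Nat.sub_add_cancel (Nat.pow_pos hp.out.pos)
  rw [hN1, ← Finset.prod_filter_mul_prod_filter_not (Icc 1 (q * i - 1)) (fun l => q ∣ l),
    prod_Icc_filter_dvd (M := ℚ_[p]) q (q * i - 1) hq0, sub_one_div hq0 hi]
  have hqc := natCast_ne_zero_padic (p := p) (n := q) hq0.ne'
  have h1 : ∏ l ∈ Icc 1 (i - 1), (((p ^ (k + 2) : ℕ) : ℚ_[p]) - ((q * l : ℕ) : ℚ_[p]))
      / ((q * l : ℕ) : ℚ_[p]) = (((p - 1).choose (i - 1) : ℕ) : ℚ_[p]) := by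
    rw [choose_eq_prod (p - 1) (i - 1) (by omega), Nat.sub_add_cancel hp.out.one_lt.le]
    refine Finset.prod_congr rfl fun l hl => ?_
    rw [mem_Icc] at hl
    have hl0 := natCast_ne_zero_padic (p := p) (n := l) (by omega)
    rw [hN]
    push_cast
    field_simp
  rw [h1]
  set L := (Icc 1 (q * i - 1)).filter (fun l => ¬ q ∣ l) with hL
  have hcard : Even L.card := by
    have c1 : ((Icc 1 (q * i - 1)).filter (fun l => q ∣ l)).card = i - 1 := by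
      have := sum_Icc_filter_dvd (M := ℕ) q (q * i - 1) hq0 (fun _ => 1)
      rw [sub_one_div hq0 hi] at this
      simpa using this
    have c2 := Finset.card_filter_add_card_filter_not (s := Icc 1 (q * i - 1)) (fun l => q ∣ l)
    rw [c1, Nat.card_Icc, ← hL] at c2
    have hqodd : Odd q := hodd.pow
    obtain ⟨a, ha⟩ := hqodd
    refine ⟨a * i, ?_⟩
    have : q * i = 2 * (a * i) + i := by rw [ha]; ring
    omega
  have h2 : ∏ l ∈ L, (((p ^ (k + 2) : ℕ) : ℚ_[p]) - l) / l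
      = ∏ l ∈ L, (1 - ((p ^ (k + 2) : ℕ) : ℚ_[p]) / l) := by
    have h3 : ∀ l ∈ L, (((p ^ (k + 2) : ℕ) : ℚ_[p]) - l) / l
        = (-1) * (1 - ((p ^ (k + 2) : ℕ) : ℚ_[p]) / l) := by
      intro l hl
      simp only [hL, mem_filter, mem_Icc] at hl
      have hl0 := natCast_ne_zero_padic (p := p) (n := l) (by omega)
      field_simp
      ring
    rw [Finset.prod_congr rfl h3, Finset.prod_mul_distrib, Finset.prod_const, hcard.neg_one_pow,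
      one_mul]
  rw [h2]
  have h4 : ‖∏ l ∈ L, (1 - ((p ^ (k + 2) : ℕ) : ℚ_[p]) / l) - 1‖ ≤ ((p : ℝ)⁻¹) ^ 3 := by
    apply norm_prod_sub_one_le _ _ (by positivity) (c_lt_one).le
    · intro l hl
      simp only [hL, mem_filter, mem_Icc] at hl
      have n1 := le_norm_of_not_dvd (p := p) (k := k) hl.2
      have l0 := natCast_ne_zero_padic (p := p) (n := l) (by omega)
      have m1 : 0 < ‖(l : ℚ_[p])‖ := norm_pos_iff.mpr l0
      rw [norm_div, norm_N, div_le_iff₀ m1]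
      calc (Q p k)⁻¹ * (p : ℝ)⁻¹ ≤ ((p : ℝ)⁻¹ * ‖(l : ℚ_[p])‖) * (p : ℝ)⁻¹ := by gcongr
        _ = ((p : ℝ)⁻¹) ^ 2 * ‖(l : ℚ_[p])‖ := by ring
    · exact norm_sum_N_div_le hp2 i
  have e3 : (((p - 1).choose (i - 1) : ℕ) : ℚ_[p]) * ∏ l ∈ L, (1 - ((p ^ (k + 2) : ℕ) : ℚ_[p]) / l)
      - (((p - 1).choose (i - 1) : ℕ) : ℚ_[p])
      = (((p - 1).choose (i - 1) : ℕ) : ℚ_[p]) *
        (∏ l ∈ L, (1 - ((p ^ (k + 2) : ℕ) : ℚ_[p]) / l) - 1) := by ring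
  rw [e3, norm_mul]
  calc _ ≤ 1 * ((p : ℝ)⁻¹) ^ 3 := by
        gcongr
        exact norm_natCast_le _
    _ = _ := one_mul _

lemma norm_q_div_sq_le {j : ℕ} (hj : ¬ p ^ (k + 1) ∣ j) :
    ‖(((p ^ (k + 1) : ℕ) : ℚ_[p]) / j) ^ 2‖ ≤ ((p : ℝ)⁻¹) ^ 2 := by
  have n1 := le_norm_of_not_dvd (p := p) (k := k) hj
  have hj0 : j ≠ 0 := by rintro rfl; exact hj (dvd_zero _)
  have l0 := natCast_ne_zero_padic (p := p) (n := j) hj0
  have m1 : 0 < ‖(j : ℚ_[p])‖ := norm_pos_iff.mpr l0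
  rw [norm_pow, norm_div, norm_q]
  have hQ := Q_pos (p := p) (k := k)
  have : (Q p k)⁻¹ / ‖(j : ℚ_[p])‖ ≤ (p : ℝ)⁻¹ := by rw [div_le_iff₀ m1]; exact n1
  have h0 : 0 ≤ (Q p k)⁻¹ / ‖(j : ℚ_[p])‖ := by positivity
  gcongr

/-- Claim B1. -/
lemma norm_sum_q_div_sq_le :
    ‖∑ j ∈ (Icc 1 (p ^ (k + 2) - 1)).filter (fun j => ¬ p ^ (k + 1) ∣ j),
      (((p ^ (k + 1) : ℕ) : ℚ_[p]) / j) ^ 2‖ ≤ ((p : ℝ)⁻¹) ^ 3 := by
  set q := p ^ (k + 1) with hq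
  have hq0 : 0 < q := Nat.pow_pos hp.out.pos
  have hN : p ^ (k + 2) = q * p := by rw [hq, ← pow_succ]
  have hp0 := p_real_pos (p := p)
  have e1 : ∑ j ∈ (Icc 1 (p ^ (k + 2) - 1)).filter (fun j => ¬ q ∣ j), ((q : ℚ_[p]) / j) ^ 2
      = ∑ x ∈ range p ×ˢ Icc 1 (q - 1), ((q : ℚ_[p]) / ((q * x.1 + x.2 : ℕ) : ℚ_[p])) ^ 2 := by
    symm
    refine Finset.sum_bij (fun x _ => q * x.1 + x.2) ?_ ?_ ?_ ?_
    · rintro ⟨a, b⟩ hx
      simp only [mem_product, mem_range, mem_Icc] at hx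
      simp only [mem_filter, mem_Icc]
      obtain ⟨ha, hb1, hb2⟩ := hx
      have h1 : q * a + q ≤ q * p := by
        calc q * a + q = q * (a + 1) := by ring
          _ ≤ q * p := Nat.mul_le_mul_left q ha
      refine ⟨⟨by omega, by rw [hN]; omega⟩, ?_⟩
      intro h
      have h2 : q ∣ b := (Nat.dvd_add_right (Dvd.intro _ rfl)).mp h
      exact absurd (Nat.le_of_dvd (by omega) h2) (by omega)
    · rintro ⟨a, b⟩ hx ⟨a', b'⟩ hx' h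
      simp only [mem_product, mem_range, mem_Icc] at hx hx' h
      have h1 : (q * a + b) / q = a := by
        rw [Nat.mul_add_div hq0, Nat.div_eq_of_lt (by omega)]; omega
      have h2 : (q * a' + b') / q = a' := by
        rw [Nat.mul_add_div hq0, Nat.div_eq_of_lt (by omega)]; omega
      rw [h, h2] at h1
      subst h1
      simp only [Prod.mk.injEq, true_and]
      omega
    · intro j hj
      simp only [mem_filter, mem_Icc] at hj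
      refine ⟨(j / q, j % q), ?_, ?_⟩
      · simp only [mem_product, mem_range, mem_Icc]
        have h1 : j % q < q := Nat.mod_lt _ hq0
        have h2 : j % q ≠ 0 := fun h => hj.2 (Nat.dvd_of_mod_eq_zero h)
        have h3 : j < q * p := by rw [← hN]; have := Nat.pow_pos (n := k + 2) hp.out.pos; omega
        refine ⟨?_, by omega, by omega⟩
        exact Nat.div_lt_of_lt_mul h3
      · exact Nat.div_add_mod j q
    · intro x _; rfl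
  rw [e1]
  have e2 : ∑ x ∈ range p ×ˢ Icc 1 (q - 1), ((q : ℚ_[p]) / ((q * x.1 + x.2 : ℕ) : ℚ_[p])) ^ 2
      = ∑ x ∈ range p ×ˢ Icc 1 (q - 1), (((q : ℚ_[p]) / ((q * x.1 + x.2 : ℕ) : ℚ_[p])) ^ 2
          - ((q : ℚ_[p]) / (x.2 : ℚ_[p])) ^ 2)
        + ∑ b ∈ Icc 1 (q - 1), (p : ℚ_[p]) * ((q : ℚ_[p]) / (b : ℚ_[p])) ^ 2 := by
    rw [Finset.sum_sub_distrib]
    have : ∑ x ∈ range p ×ˢ Icc 1 (q - 1), ((q : ℚ_[p]) / (x.2 : ℚ_[p])) ^ 2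
        = ∑ b ∈ Icc 1 (q - 1), (p : ℚ_[p]) * ((q : ℚ_[p]) / (b : ℚ_[p])) ^ 2 := by
      rw [Finset.sum_product]
      simp only [Finset.sum_const, card_range, nsmul_eq_mul]
      rw [Finset.mul_sum]
    rw [this]; ring
  rw [e2]
  apply norm_add_le_of
  · apply norm_sum_le_of _ _ (by positivity)
    rintro ⟨a, b⟩ hx
    simp only [mem_product, mem_range, mem_Icc] at hx
    apply norm_sq_sub_sq_le (p := p) (k := k)
    · apply le_norm_of_not_dvd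
      intro h
      have h2 : q ∣ b := (Nat.dvd_add_right (Dvd.intro _ rfl)).mp h
      exact absurd (Nat.le_of_dvd (by omega) h2) (by omega)
    · have : ((q * a + b : ℕ) : ℚ_[p]) - (b : ℚ_[p]) = (q : ℚ_[p]) * (a : ℚ_[p]) := by
        push_cast; ring
      rw [this, norm_mul, hq, norm_q]
      have hQ := Q_pos (p := p) (k := k)
      calc (Q p k)⁻¹ * ‖(a : ℚ_[p])‖ ≤ (Q p k)⁻¹ * 1 := by
            gcongr; exact norm_natCast_le a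
        _ = (Q p k)⁻¹ := mul_one _
  · apply norm_sum_le_of _ _ (by positivity)
    intro b hb
    rw [mem_Icc] at hb
    rw [norm_mul, Padic.norm_p]
    have hnd : ¬ p ^ (k + 1) ∣ b := by
      intro h
      exact absurd (Nat.le_of_dvd (by omega) h) (by omega)
    have := norm_q_div_sq_le (p := p) (k := k) hnd
    rw [← hq] at this
    calc (p : ℝ)⁻¹ * ‖((q : ℚ_[p]) / (b : ℚ_[p])) ^ 2‖ ≤ (p : ℝ)⁻¹ * ((p : ℝ)⁻¹) ^ 2 := by gcongr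
      _ = ((p : ℝ)⁻¹) ^ 3 := by ring

/-- Claim B2. -/
lemma norm_alt_sum_q_div_sq_le (hp2 : p ≠ 2) :
    ‖∑ j ∈ (Icc 1 (p ^ (k + 2) - 1)).filter (fun j => ¬ p ^ (k + 1) ∣ j),
      (-1 : ℚ_[p]) ^ (j - 1) * (((p ^ (k + 1) : ℕ) : ℚ_[p]) / j) ^ 2‖ ≤ ((p : ℝ)⁻¹) ^ 3 := by
  apply norm_le_of_two_mul hp2
  set q := p ^ (k + 1) with hq
  set N := p ^ (k + 2) with hNdef
  have hq0 : 0 < q := Nat.pow_pos hp.out.pos
  have hN : N = q * p := by rw [hq, hNdef, ← pow_succ]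
  have hN0 : 0 < N := Nat.pow_pos hp.out.pos
  have hqN : q ∣ N := ⟨p, hN⟩
  have hp0 := p_real_pos (p := p)
  have hodd : Odd N := (hp.out.odd_of_ne_two hp2).pow
  set J := (Icc 1 (N - 1)).filter (fun j => ¬ q ∣ j) with hJ
  have hrefl : ∑ j ∈ J, (-1 : ℚ_[p]) ^ (N - j - 1) * ((q : ℚ_[p]) / ((N - j : ℕ) : ℚ_[p])) ^ 2
      = ∑ j ∈ J, (-1 : ℚ_[p]) ^ (j - 1) * ((q : ℚ_[p]) / j) ^ 2 := by
    refine Finset.sum_nbij' (fun l => N - l) (fun l => N - l) ?_ ?_ ?_ ?_ ?_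
    · intro l hl
      simp only [hJ, mem_filter, mem_Icc] at hl ⊢
      refine ⟨by omega, fun h => hl.2 ?_⟩
      have h1 : l = N - (N - l) := by omega
      rw [h1]; exact Nat.dvd_sub hqN h
    · intro l hl
      simp only [hJ, mem_filter, mem_Icc] at hl ⊢
      refine ⟨by omega, fun h => hl.2 ?_⟩
      have h1 : l = N - (N - l) := by omega
      rw [h1]; exact Nat.dvd_sub hqN h
    · intro l hl; simp only [hJ, mem_filter, mem_Icc] at hl; omega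
    · intro l hl; simp only [hJ, mem_filter, mem_Icc] at hl; omega
    · intro l _; rfl
  have e1 : 2 * ∑ j ∈ J, (-1 : ℚ_[p]) ^ (j - 1) * ((q : ℚ_[p]) / j) ^ 2
      = ∑ j ∈ J, (-1 : ℚ_[p]) ^ (j - 1) * (((q : ℚ_[p]) / j) ^ 2
        - ((q : ℚ_[p]) / ((j : ℚ_[p]) - (N : ℚ_[p]))) ^ 2) := by
    rw [two_mul]
    conv_lhs => rw [← hrefl]
    rw [hrefl]
    nth_rewrite 2 [← hrefl]
    rw [← Finset.sum_add_distrib]
    refine Finset.sum_congr rfl fun j hj => ?_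
    simp only [hJ, mem_filter, mem_Icc] at hj
    obtain ⟨i, rfl⟩ : ∃ i, j = i + 1 := ⟨j - 1, by omega⟩
    obtain ⟨t, ht⟩ := hodd
    have e3 : (-1 : ℚ_[p]) ^ (N - (i + 1) - 1) = -(-1) ^ (i + 1 - 1) := by
      have e2 : i + 1 - 1 = i := by omega
      have e3 : (-1 : ℚ_[p]) ^ (N - (i + 1) - 1) * (-1) ^ i = -1 := by
        rw [← pow_add]
        have : N - (i + 1) - 1 + i = 2 * (t - 1) + 1 := by omega
        rw [this, pow_succ, pow_mul]; simp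
      have e4 : (-1 : ℚ_[p]) ^ i * (-1) ^ i = 1 := by
        rw [← mul_pow]; simp
      rw [e2]
      linear_combination (-1 : ℚ_[p]) ^ i * e3 - (-1 : ℚ_[p]) ^ (N - (i + 1) - 1) * e4
    have e5 : (((i + 1 : ℕ) : ℚ_[p]) - (N : ℚ_[p])) = -((N - (i + 1) : ℕ) : ℚ_[p]) := by
      rw [Nat.cast_sub (by omega)]; ring
    rw [e3, e5, div_neg, neg_sq]
    ring
  rw [e1]
  apply norm_sum_le_of _ _ (by positivity)
  intro j hj
  simp only [hJ, mem_filter, mem_Icc] at hj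
  rw [norm_mul, norm_neg_one_pow, one_mul]
  apply norm_sq_sub_sq_le (p := p) (k := k) (le_norm_of_not_dvd hj.2)
  have : (j : ℚ_[p]) - ((j : ℚ_[p]) - (N : ℚ_[p])) = (N : ℚ_[p]) := by ring
  rw [this, hNdef, norm_N]
  have hQ := Q_pos (p := p) (k := k)
  calc (Q p k)⁻¹ * (p : ℝ)⁻¹ ≤ (Q p k)⁻¹ * 1 := by
        gcongr; exact c_lt_one.le
    _ = (Q p k)⁻¹ := mul_one _

/-- `q² R(N) / N` is close to `W`. -/
lemma norm_main_sub_W_le (hp2 : p ≠ 2) :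
    ‖((p ^ (k + 1) : ℕ) : ℚ_[p]) ^ 2 * ((R (p ^ (k + 2)) : ℚ) : ℚ_[p]) / ((p ^ (k + 2) : ℕ) : ℚ_[p])
      - (W p : ℚ_[p])‖ ≤ ((p : ℝ)⁻¹) ^ 3 := by
  have hoddN : Odd (p ^ (k + 2)) := (hp.out.odd_of_ne_two hp2).pow
  rw [R_odd hoddN]
  set q := p ^ (k + 1) with hq
  set N := p ^ (k + 2) with hNdef
  have hq0 : 0 < q := Nat.pow_pos hp.out.pos
  have hN : N = q * p := by rw [hq, hNdef, ← pow_succ]
  have hN0 : 0 < N := Nat.pow_pos hp.out.pos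
  have hp0 := p_real_pos (p := p)
  have hodd := hp.out.odd_of_ne_two hp2
  have hNc := natCast_ne_zero_padic (p := p) (n := N) hN0.ne'
  have hqc := natCast_ne_zero_padic (p := p) (n := q) hq0.ne'
  have e1 : (q : ℚ_[p]) ^ 2 * (((N : ℚ) * ∑ j ∈ Icc 1 (N - 1),
      ((N - 1).choose (j - 1) : ℚ) * (1 - (-1) ^ j) / (j : ℚ) ^ 2 : ℚ) : ℚ_[p]) / (N : ℚ_[p])
      = ∑ j ∈ Icc 1 (N - 1), ((N - 1).choose (j - 1) : ℚ_[p]) * (1 - (-1) ^ j)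
        * ((q : ℚ_[p]) / j) ^ 2 := by
    push_cast
    rw [← mul_assoc, mul_div_right_comm, mul_div_assoc, div_self hNc, mul_one, Finset.mul_sum]
    refine Finset.sum_congr rfl fun j _ => ?_
    rw [div_pow]; ring
  rw [e1, ← Finset.sum_filter_add_sum_filter_not (Icc 1 (N - 1)) (fun j => q ∣ j),
    sum_Icc_filter_dvd (M := ℚ_[p]) q (N - 1) hq0]
  have hdiv : (N - 1) / q = p - 1 := by rw [hN]; exact sub_one_div hq0 hp.out.one_lt.le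
  rw [hdiv]
  have e2 : (W p : ℚ_[p]) = ∑ i ∈ Icc 1 (p - 1),
      ((p - 1).choose (i - 1) : ℚ_[p]) * (1 - (-1) ^ i) * ((i : ℚ_[p])⁻¹) ^ 2 := by
    unfold W
    rw [PadicInt.coe_sum]
    refine Finset.sum_congr rfl fun j hj => ?_
    rw [mem_Icc] at hj
    have hcop : p.Coprime j := coprime_of_lt hj.1 (by have := hp.out.two_le; omega)
    push_cast
    rw [coe_pinv hcop]
  rw [e2]
  have e3 : ∀ A B C : ℚ_[p], A + B - C = (A - C) + B := by intro A B C; ring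
  rw [e3]
  apply norm_add_le_of
  · rw [← Finset.sum_sub_distrib]
    apply norm_sum_le_of _ _ (by positivity)
    intro i hi
    rw [mem_Icc] at hi
    have hi' : i < p := by have := hp.out.two_le; omega
    have hA := norm_choose_sub_choose_le (p := p) (k := k) hp2 i hi.1 hi'
    have hcop : p.Coprime i := coprime_of_lt hi.1 hi'
    have hi0 := natCast_ne_zero_padic (p := p) (n := i) (by omega)
    have e4 : (-1 : ℚ_[p]) ^ (q * i) = (-1) ^ i := by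
      rw [pow_mul, (hodd.pow : Odd q).neg_one_pow]
    have e5 : (q : ℚ_[p]) / ((q * i : ℕ) : ℚ_[p]) = (i : ℚ_[p])⁻¹ := by
      push_cast; field_simp
    rw [e4, e5]
    have e6 : ((N - 1).choose (q * i - 1) : ℚ_[p]) * (1 - (-1) ^ i) * ((i : ℚ_[p])⁻¹) ^ 2
        - ((p - 1).choose (i - 1) : ℚ_[p]) * (1 - (-1) ^ i) * ((i : ℚ_[p])⁻¹) ^ 2
        = (((N - 1).choose (q * i - 1) : ℚ_[p]) - ((p - 1).choose (i - 1) : ℚ_[p]))
          * (1 - (-1) ^ i) * ((i : ℚ_[p])⁻¹) ^ 2 := by ring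
    rw [e6, norm_mul, norm_mul, norm_pow, norm_inv, Padic.norm_natCast_eq_one_iff.mpr hcop]
    calc _ ≤ ((p : ℝ)⁻¹) ^ 3 * 1 * 1⁻¹ ^ 2 := by
          gcongr
          exact norm_sub_le_of (by simp) (norm_neg_one_pow i).le
      _ = _ := by norm_num
  · have e7 : ∑ j ∈ (Icc 1 (N - 1)).filter (fun j => ¬ q ∣ j),
        ((N - 1).choose (j - 1) : ℚ_[p]) * (1 - (-1) ^ j) * ((q : ℚ_[p]) / j) ^ 2
        = ∑ j ∈ (Icc 1 (N - 1)).filter (fun j => ¬ q ∣ j),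
          (((N - 1).choose (j - 1) : ℚ_[p]) - (-1) ^ (j - 1)) * (1 - (-1) ^ j)
            * ((q : ℚ_[p]) / j) ^ 2
        + (∑ j ∈ (Icc 1 (N - 1)).filter (fun j => ¬ q ∣ j),
            (-1 : ℚ_[p]) ^ (j - 1) * ((q : ℚ_[p]) / j) ^ 2
          + ∑ j ∈ (Icc 1 (N - 1)).filter (fun j => ¬ q ∣ j), ((q : ℚ_[p]) / j) ^ 2) := by
      rw [← Finset.sum_add_distrib, ← Finset.sum_add_distrib]
      refine Finset.sum_congr rfl fun j hj => ?_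
      simp only [mem_filter, mem_Icc] at hj
      obtain ⟨i, rfl⟩ : ∃ i, j = i + 1 := ⟨j - 1, by omega⟩
      have e2 : i + 1 - 1 = i := by omega
      have e4 : (-1 : ℚ_[p]) ^ i * (-1) ^ i = 1 := by
        rw [← mul_pow]; simp
      rw [e2, pow_succ (-1 : ℚ_[p]) i]
      linear_combination (((q : ℚ_[p]) / ((i + 1 : ℕ) : ℚ_[p])) ^ 2) * e4
    rw [e7]
    apply norm_add_le_of
    · apply norm_sum_le_of _ _ (by positivity)
      intro j hj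
      simp only [mem_filter, mem_Icc] at hj
      have hC := norm_choose_sub_le (p := p) (k + 2) (j - 1) (by omega)
      have hs := norm_q_div_sq_le (p := p) (k := k) hj.2
      rw [norm_mul, norm_mul]
      calc _ ≤ (p : ℝ)⁻¹ * 1 * ((p : ℝ)⁻¹) ^ 2 := by
            gcongr
            · exact norm_sub_le_of (by simp) (norm_neg_one_pow j).le
        _ = _ := by ring
    · apply norm_add_le_of
      · exact norm_alt_sum_q_div_sq_le hp2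
      · exact norm_sum_q_div_sq_le

/-- **Prime powers.** If `e ≥ 2` and `(p^e)^2` divides the numerator of `R(p^e)`, then `p^4`
divides the numerator of `R(p)`. -/
theorem four_dvd_of_prime_power (hp2 : p ≠ 2) {e : ℕ} (he : 2 ≤ e)
    (h : ((p ^ e : ℕ) : ℤ) ^ 2 ∣ numR (p ^ e)) : (p : ℤ) ^ 4 ∣ numR p := by
  obtain ⟨k, rfl⟩ : ∃ k, e = k + 2 := ⟨e - 2, by omega⟩
  have hp0 := p_real_pos (p := p)
  have hQ := Q_pos (p := p) (k := k)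
  have h1 : (p : ℤ) ^ (2 * (k + 2)) ∣ (R (p ^ (k + 2))).num := by
    have : ((p ^ (k + 2) : ℕ) : ℤ) ^ 2 = (p : ℤ) ^ (2 * (k + 2)) := by
      push_cast; rw [← pow_mul]; congr 1; ring
    rw [← this]; exact h
  obtain ⟨z, hz⟩ := exists_padic_of_dvd_num (R (p ^ (k + 2))) (2 * (k + 2)) (by omega) h1
  have h2 := norm_main_sub_W_le (p := p) (k := k) hp2
  have hN0 := natCast_ne_zero_padic (p := p) (n := p ^ (k + 2)) (Nat.pow_pos hp.out.pos).ne'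
  have h3 : ‖((p ^ (k + 1) : ℕ) : ℚ_[p]) ^ 2 * ((R (p ^ (k + 2)) : ℚ) : ℚ_[p])
      / ((p ^ (k + 2) : ℕ) : ℚ_[p])‖ ≤ ((p : ℝ)⁻¹) ^ 3 := by
    have hpc := p_ne_zero' (p := p)
    have e1 : ((p ^ (k + 1) : ℕ) : ℚ_[p]) ^ 2 * ((R (p ^ (k + 2)) : ℚ) : ℚ_[p])
      / ((p ^ (k + 2) : ℕ) : ℚ_[p]) = (p : ℚ_[p]) ^ (3 * k + 4) * z := by
      rw [hz, div_eq_iff hN0]
      push_cast
      ring
    rw [e1, norm_mul, norm_pow, Padic.norm_p]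
    calc ((p : ℝ)⁻¹) ^ (3 * k + 4) * ‖(z : ℚ_[p])‖ ≤ ((p : ℝ)⁻¹) ^ 3 * 1 := by
          apply mul_le_mul _ z.2 (norm_nonneg _) (by positivity)
          exact pow_le_pow_of_le_one (by positivity) c_lt_one.le (by omega)
      _ = _ := mul_one _
  have h4 : ‖(W p : ℚ_[p])‖ ≤ ((p : ℝ)⁻¹) ^ 3 := by
    have e2 : (W p : ℚ_[p]) = ((p ^ (k + 1) : ℕ) : ℚ_[p]) ^ 2 * ((R (p ^ (k + 2)) : ℚ) : ℚ_[p])
      / ((p ^ (k + 2) : ℕ) : ℚ_[p]) - (((p ^ (k + 1) : ℕ) : ℚ_[p]) ^ 2 * ((R (p ^ (k + 2)) : ℚ) : ℚ_[p])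
      / ((p ^ (k + 2) : ℕ) : ℚ_[p]) - (W p : ℚ_[p])) := by ring
    rw [e2]
    exact norm_sub_le_of h3 h2
  have h5 : ∃ w : ℤ_[p], (W p : ℚ_[p]) = (p : ℚ_[p]) ^ 3 * w := by
    have h6 : ‖(W p : ℚ_[p]) / (p : ℚ_[p]) ^ 3‖ ≤ 1 := by
      rw [norm_div, norm_pow, Padic.norm_p, div_le_one (by positivity)]
      exact h4
    refine ⟨⟨(W p : ℚ_[p]) / (p : ℚ_[p]) ^ 3, h6⟩, ?_⟩
    have hpc := p_ne_zero' (p := p)
    have : (((⟨(W p : ℚ_[p]) / (p : ℚ_[p]) ^ 3, h6⟩ : ℤ_[p])) : ℚ_[p])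
      = (W p : ℚ_[p]) / (p : ℚ_[p]) ^ 3 := rfl
    rw [this]
    field_simp
  obtain ⟨w, hw⟩ := h5
  apply dvd_num_of_padic (R p) 4 w
  rw [R_prime_padic hp2, hw]
  ring

end level

end Pool.Agent.TwoPow
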