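import Mathlib
import Pool.Agent.TwoPow.PrimePower

/-!
# Even numbers and multiples of good primes
-/

namespace Pool.Agent.TwoPow

open Finset

/-- `2^k/k` is twice a `2`-adic integer, for `k ≥ 1`. -/
lemma two_pow_div_padic (k : ℕ) (hk : 1 ≤ k) :
    ∃ z : ℤ_[2], (2 : ℚ_[2]) ^ k / (k : ℚ_[2]) = 2 * z := by
  obtain ⟨v, u, hu, hku⟩ := Nat.exists_eq_two_pow_mul_odd (n := k) (by omega)
  have hcop : Nat.Coprime 2 u := (Nat.coprime_two_left).mpr hu
  have hv : v < k := by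
    calc v < 2 ^ v := Nat.lt_two_pow_self
      _ ≤ 2 ^ v * u := Nat.le_mul_of_pos_right _ (by obtain ⟨t, ht⟩ := hu; omega)
      _ = k := hku.symm
  obtain ⟨t, ht⟩ : ∃ t, k = v + 1 + t := ⟨k - v - 1, by omega⟩
  refine ⟨2 ^ t * pinv 2 u, ?_⟩
  push_cast
  rw [coe_pinv hcop]
  have hu0 : (u : ℚ_[2]) ≠ 0 := natCast_ne_zero_padic (by obtain ⟨t, ht⟩ := hu; omega)
  have h1 : (k : ℚ_[2]) = 2 ^ v * u := by exact_mod_cast congrArg (Nat.cast (R := ℚ_[2])) hku
  have h3 : ((2 : ℤ_[2]) : ℚ_[2]) = 2 := rfl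
  rw [h1, h3]
  have h2 : (2 : ℚ_[2]) ^ k = 2 ^ v * 2 * 2 ^ t := by rw [ht, pow_add, pow_add, pow_one]
  rw [h2]
  field_simp

/-- For even `n ≥ 2` the numerator of `R(n)` is odd. -/
theorem numR_odd_of_even {n : ℕ} (hn : Even n) (h0 : n ≠ 0) : ¬ (2 : ℤ) ∣ numR n := by
  intro h
  obtain ⟨z, hz⟩ := exists_padic_of_dvd_num (p := 2) (R n) 1 le_rfl (by simpa [numR] using h)
  rw [R_padic] at hz
  have h1 : ∃ w : ℤ_[2], A 2 0 n = 2 * (w : ℚ_[2]) := by
    unfold A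
    have h2 : ∀ k ∈ Icc 1 n, ∃ z : ℤ_[2], (2 : ℚ_[2]) ^ (k * 2 ^ 0) / (k : ℚ_[2]) = 2 * z := by
      intro k hk
      rw [pow_zero, mul_one]
      exact two_pow_div_padic k (mem_Icc.mp hk).1
    choose! g hg using h2
    refine ⟨∑ k ∈ Icc 1 n, g k, ?_⟩
    rw [PadicInt.coe_sum, Finset.mul_sum]
    exact Finset.sum_congr rfl hg
  obtain ⟨w, hw⟩ := h1
  rw [hw] at hz
  have hn0 : (n : ℚ_[2]) ≠ 0 := natCast_ne_zero_padic h0
  have h3 : (1 : ℚ_[2]) = (n : ℚ_[2]) * (((w - z : ℤ_[2])) : ℚ_[2]) := by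
    push_cast
    push_cast at hz
    rw [pow_one] at hz
    field_simp at hz
    linear_combination -hz
  have h4 := congrArg norm h3
  rw [norm_one, norm_mul] at h4
  have h5 : ‖(n : ℚ_[2])‖ < 1 := Padic.norm_natCast_lt_one_iff.mpr hn.two_dvd
  have h6 : ‖(((w - z : ℤ_[2])) : ℚ_[2])‖ ≤ 1 := (w - z).2
  have h7 : ‖(n : ℚ_[2])‖ * ‖(((w - z : ℤ_[2])) : ℚ_[2])‖ < 1 := by
    calc _ ≤ ‖(n : ℚ_[2])‖ * 1 := by gcongr
      _ < 1 := by rw [mul_one]; exact h5
  linarith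

variable {p : ℕ} [hp : Fact p.Prime]

/-- Multiples of a good prime. -/
theorem good_prime_case (h2 : p ≠ 2) (hs : ∀ d, 1 ≤ d → d < p → s p d ≠ 0)
    (hB : ∀ m, Odd m → 1 < m → m < p → s p m ≠ 2 * (m : ZMod p)⁻¹)
    {n : ℕ} (hn : Odd n) (hpn : p ∣ n) (hnum : (p : ℤ) ∣ numR n) : ∃ e, 1 ≤ e ∧ n = p ^ e := by
  have hn0 : n ≠ 0 := by rintro rfl; exact absurd hn (by decide)
  obtain ⟨e, m, hm, hnm⟩ := Nat.exists_eq_pow_mul_and_not_dvd hn0 p hp.out.ne_one
  have he : 1 ≤ e := by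
    rcases Nat.eq_zero_or_pos e with h0 | h0
    · rw [h0, pow_zero, one_mul] at hnm
      rw [hnm] at hpn
      exact absurd hpn hm
    · exact h0
  have hcop : p.Coprime m := (Nat.Prime.coprime_iff_not_dvd hp.out).mpr hm
  obtain ⟨z, hz⟩ := exists_padic_of_dvd_num (p := p) (R n) 1 le_rfl (by simpa [numR] using hnum)
  rw [hnm] at hz
  obtain ⟨w, hw⟩ := A_sub_of_integral he hcop ((p : ℤ_[p]) * z) (by rw [hz]; push_cast; ring)
  have hint : A p e m = ((2 * pinv p m + p * w : ℤ_[p]) : ℚ_[p]) := by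
    rw [hw]; push_cast; rfl
  have hZ := Z_of_integral _ hint
  have h3 := eq_zero_of_Z hs hZ
  have hmp : m < p := by
    rcases Nat.lt_or_ge m p with h | h
    · exact h
    · have := (Nat.one_le_div_iff hp.out.pos).mpr h
      omega
  have hm0 : m ≠ 0 := by rintro rfl; exact hm (dvd_zero p)
  rw [A_eq, h3] at hw
  have h4 : A p (e + 1) 0 = 0 := by simp [A]
  rw [h4, zero_div, add_zero] at hw
  have h5 : U p e m = 2 * pinv p m + p * w := by
    apply Subtype.coe_injective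
    change ((U p e m : ℤ_[p]) : ℚ_[p]) = ((2 * pinv p m + p * w : ℤ_[p]) : ℚ_[p])
    rw [hw]; push_cast; rfl
  have h6 := congrArg (PadicInt.toZMod (p := p)) h5
  have h7 := toZMod_U (p := p) e 0 m hmp
  rw [mul_zero, zero_add, pow_zero, one_mul] at h7
  have h8 : U p e 0 = 0 := by simp [U]
  rw [h8, map_zero, zero_add] at h7
  rw [h7, map_add, map_mul, map_mul, toZMod_pinv hcop, map_natCast, map_ofNat] at h6
  simp only [CharP.cast_eq_zero, zero_mul, add_zero] at h6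
  have hmodd : Odd m := by
    rw [hnm] at hn
    exact (Nat.odd_mul.mp hn).2
  by_cases hm1 : m = 1
  · exact ⟨e, he, by rw [hnm, hm1, mul_one]⟩
  · exact absurd h6 (hB m hmodd (by obtain ⟨t, ht⟩ := hmodd; omega) hmp)

/-- A prime `p` is good if it satisfies the two digit conditions and `p^4 ∤ N(p)`. -/
theorem equiv_of_good (h2 : p ≠ 2) (hs : ∀ d, 1 ≤ d → d < p → s p d ≠ 0)
    (hB : ∀ m, Odd m → 1 < m → m < p → s p m ≠ 2 * (m : ZMod p)⁻¹)
    (h4 : ¬ (p : ℤ) ^ 4 ∣ numR p) {n : ℕ} (h3 : 3 < n) (hpn : p ∣ n) :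
    ((n : ℤ) ^ 2 ∣ numR n ↔ n.Prime) := by
  constructor
  · intro h
    have hpn' : (p : ℤ) ∣ (n : ℤ) := by exact_mod_cast hpn
    have hpnum : (p : ℤ) ∣ numR n := (hpn'.trans (dvd_pow_self _ (by norm_num))).trans h
    rcases Nat.even_or_odd n with he | ho
    · exfalso
      apply numR_odd_of_even he (by omega)
      have : (2 : ℤ) ∣ (n : ℤ) := by exact_mod_cast he.two_dvd
      exact (this.trans (dvd_pow_self _ (by norm_num))).trans h
    · obtain ⟨e, he, hne⟩ := good_prime_case h2 hs hB ho hpn hpnum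
      rcases Nat.lt_or_ge e 2 with h5 | h5
      · have : e = 1 := by omega
        rw [hne, this, pow_one]
        exact hp.out
      · exfalso
        apply h4
        rw [hne] at h
        exact four_dvd_of_prime_power h2 h5 h
  · intro hprime
    have := Fact.mk hprime
    exact sq_dvd_numR_of_prime h3

/-- Even numbers. -/
theorem equiv_of_even {n : ℕ} (h3 : 3 < n) (hn : Even n) :
    ((n : ℤ) ^ 2 ∣ numR n ↔ n.Prime) := by
  constructor
  · intro h
    exfalso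
    apply numR_odd_of_even hn (by omega)
    have : (2 : ℤ) ∣ (n : ℤ) := by exact_mod_cast hn.two_dvd
    exact (this.trans (dvd_pow_self _ (by norm_num))).trans h
  · intro hprime
    exfalso
    have := hprime.eq_two_or_odd'
    rcases this with h | h
    · omega
    · exact (Nat.not_even_iff_odd.mpr h) hn

theorem equiv_of_prime {n : ℕ} (h3 : 3 < n) (hn : n.Prime) :
    ((n : ℤ) ^ 2 ∣ numR n ↔ n.Prime) := by
  have := Fact.mk hn
  exact ⟨fun _ => hn, fun _ => sq_dvd_numR_of_prime h3⟩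

end Pool.Agent.TwoPow
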