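import Mathlib
import Pool.Agent.TwoPow.Local

/-!
# Kernel-checked verification that certain primes are good
-/

namespace Pool.Agent.TwoPow

open Finset

/-- evaluate a natural number before passing it on -/
def force {α : Type} (n : ℕ) (k : ℕ → α) : α :=
  match n with
  | 0 => k 0
  | m + 1 => k (m + 1)

theorem force_eq {α : Type} (n : ℕ) (k : ℕ → α) : force n k = k n := by
  cases n <;> rfl

/-- Checks the digit conditions from `d` on; `a` is the value of the sum up to `d - 1`. -/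
def digitLoop (p : ℕ) : ℕ → ℕ → ℕ → Bool
  | 0, _, _ => true
  | fuel + 1, d, a => force ((a + 2 ^ d * d ^ (p - 2)) % p) fun a' =>
      (!(a' == 0)) && (d % 2 == 0 || d == 1 || !((a' * d) % p == 2)) &&
        force (d + 1) fun d' => digitLoop p fuel d' a'

/-- `(T, f) ↦` next values of `T_k = k! ∑_{i ≤ k} 2^i / i` and `k!`; the result is checked. -/
def facLoop (p : ℕ) : ℕ → ℕ → ℕ → ℕ → Bool
  | 0, _, T, f => !(((2 ^ p - 2) * f + p * T) % p ^ 5 == 0)
  | fuel + 1, k, T, f => force (k * T + 2 ^ k * f) fun T' => force (k * f) fun f' =>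
      force (k + 1) fun k' => facLoop p fuel k' T' f'

def goodCheck (p : ℕ) : Bool := digitLoop p (p - 1) 1 0 && facLoop p (p - 1) 1 0 1

variable {p : ℕ} [hp : Fact p.Prime]

lemma inv_eq_pow {r : ℕ} (h1 : 1 ≤ r) (h2 : r < p) :
    ((r : ZMod p))⁻¹ = (r : ZMod p) ^ (p - 2) := by
  have hr : (r : ZMod p) ≠ 0 := by
    rw [Ne, ZMod.natCast_eq_zero_iff]
    intro h; exact absurd (Nat.le_of_dvd h1 h) (by omega)
  have h3 := ZMod.pow_card_sub_one_eq_one hr
  have h4 : p - 1 = (p - 2) + 1 := by have := hp.out.two_le; omega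
  rw [h4, pow_succ] at h3
  exact (eq_inv_of_mul_eq_one_left h3).symm

lemma digitLoop_spec (fuel : ℕ) : ∀ d a : ℕ, 1 ≤ d → d + fuel = p →
    (a : ZMod p) = s p (d - 1) → digitLoop p fuel d a = true →
    ∀ r, d ≤ r → r < p → s p r ≠ 0 ∧ (Odd r → 1 < r → s p r ≠ 2 * ((r : ZMod p))⁻¹) := by
  induction fuel with
  | zero => intro d a h1 h2 _ _ r hr1 hr2; omega
  | succ fuel ih =>
    intro d a h1 h2 ha h r hr1 hr2
    have hp2 := hp.out.two_le
    rw [digitLoop] at h
    rw [force_eq, Bool.and_eq_true, Bool.and_eq_true] at h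
    obtain ⟨⟨c1, c2⟩, c3⟩ := h
    rw [force_eq] at c3
    set a' := (a + 2 ^ d * d ^ (p - 2)) % p with ha'
    have hs : (a' : ZMod p) = s p d := by
      obtain ⟨d, rfl⟩ : ∃ d', d = d' + 1 := ⟨d - 1, by omega⟩
      have e1 : d + 1 - 1 = d := by omega
      rw [e1] at ha
      rw [ha', ZMod.natCast_mod]
      unfold s at ha ⊢
      rw [Finset.sum_Icc_succ_top (by omega), ← ha, inv_eq_pow (by omega) (by omega)]
      push_cast; ring
    rcases Nat.lt_or_ge d r with hlt | hge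
    · refine ih (d + 1) a' (by omega) (by omega) ?_ c3 r hlt hr2
      rw [hs]; congr 1
    · have hrd : r = d := by omega
      subst hrd
      have ha'lt : a' < p := Nat.mod_lt _ hp.out.pos
      refine ⟨?_, ?_⟩
      · intro h0
        rw [← hs, ZMod.natCast_eq_zero_iff] at h0
        have h3 : a' = 0 := Nat.eq_zero_of_dvd_of_lt h0 ha'lt
        rw [h3] at c1
        simp at c1
      · intro hodd hr1' h0
        have hr0 : (r : ZMod p) ≠ 0 := by
          rw [Ne, ZMod.natCast_eq_zero_iff]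
          intro h; exact absurd (Nat.le_of_dvd h1 h) (by omega)
        have h3 : ((a' * r : ℕ) : ZMod p) = ((2 : ℕ) : ZMod p) := by
          push_cast
          rw [hs, h0, mul_assoc, inv_mul_cancel₀ hr0, mul_one]
        have h4 := (ZMod.natCast_eq_natCast_iff _ _ _).mp h3
        have h5 : (a' * r) % p = 2 := by
          have h6 : (a' * r) % p = 2 % p := h4
          rw [h6, Nat.mod_eq_of_lt (by omega)]
        rw [h5] at c2
        have h7 : r % 2 = 1 := Nat.odd_iff.mp hodd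
        simp [h7] at c2
        omega

lemma facLoop_spec (fuel : ℕ) : ∀ k T f : ℕ, 1 ≤ k → k + fuel = p →
    f = (k - 1).factorial → (T : ℚ) = (k - 1).factorial * ∑ i ∈ Icc 1 (k - 1), (2 : ℚ) ^ i / i →
    facLoop p fuel k T f = true →
    ∃ T' : ℕ, (T' : ℚ) = (p - 1).factorial * ∑ i ∈ Icc 1 (p - 1), (2 : ℚ) ^ i / i ∧
      ¬ p ^ 5 ∣ (2 ^ p - 2) * (p - 1).factorial + p * T' := by
  induction fuel with
  | zero =>
    intro k T f h1 h2 hf hT h
    have : k = p := by omega
    subst this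
    refine ⟨T, hT, ?_⟩
    rw [facLoop, hf] at h
    intro hd
    rw [Nat.dvd_iff_mod_eq_zero] at hd
    rw [hd] at h
    simp at h
  | succ fuel ih =>
    intro k T f h1 h2 hf hT h
    rw [facLoop, force_eq, force_eq, force_eq] at h
    obtain ⟨k, rfl⟩ : ∃ k', k = k' + 1 := ⟨k - 1, by omega⟩
    have e1 : k + 1 - 1 = k := by omega
    rw [e1] at hf hT
    refine ih (k + 1 + 1) _ _ (by omega) (by omega) ?_ ?_ h
    · have e2 : k + 1 + 1 - 1 = k + 1 := by omega
      rw [e2, hf, Nat.factorial_succ]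
    · have e2 : k + 1 + 1 - 1 = k + 1 := by omega
      rw [e2, Finset.sum_Icc_succ_top (by omega), Nat.factorial_succ]
      push_cast
      rw [hT, hf]
      have : ((k : ℚ) + 1) ≠ 0 := by positivity
      field_simp

theorem good_of_check (h2 : p ≠ 2) (h : goodCheck p = true) :
    (∀ d, 1 ≤ d → d < p → s p d ≠ 0) ∧
    (∀ m, Odd m → 1 < m → m < p → s p m ≠ 2 * (m : ZMod p)⁻¹) ∧
    ¬ (p : ℤ) ^ 4 ∣ numR p := by
  unfold goodCheck at h
  rw [Bool.and_eq_true] at h
  obtain ⟨c1, c2⟩ := h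
  have hp2 := hp.out.two_le
  have h3 := digitLoop_spec (p := p) (p - 1) 1 0 le_rfl (by omega) (by simp [s]) c1
  have h4 := facLoop_spec (p := p) (p - 1) 1 0 1 le_rfl (by omega) (by simp) (by simp) c2
  refine ⟨fun d h5 h6 => (h3 d h5 h6).1, fun m h5 h6 h7 => (h3 m (by omega) h7).2 h5 h6, ?_⟩
  intro hd
  obtain ⟨T, hT, hnd⟩ := h4
  apply hnd
  obtain ⟨z, hz⟩ := exists_padic_of_dvd_num (p := p) (R p) 4 (by norm_num) hd
  have hp0 : (p : ℚ) ≠ 0 := by exact_mod_cast hp.out.ne_zero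
  have h2p : 2 ≤ 2 ^ p := by
    calc 2 = 2 ^ 1 := rfl
      _ ≤ 2 ^ p := Nat.pow_le_pow_right (by norm_num) (by omega)
  have e1 : (((2 ^ p - 2) * (p - 1).factorial + p * T : ℕ) : ℚ) = p * (p - 1).factorial * R p := by
    unfold R
    have e2 : Icc 1 p = insert p (Icc 1 (p - 1)) := by
      ext x; simp only [mem_Icc, mem_insert]; omega
    rw [e2, Finset.sum_insert (by simp only [mem_Icc]; omega)]
    push_cast [Nat.cast_sub h2p]
    rw [hT]
    field_simp
    ring
  have e3 : ((((2 ^ p - 2) * (p - 1).factorial + p * T : ℕ) : ℤ) : ℚ_[p])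
      = (p : ℚ_[p]) ^ 5 * (((p - 1).factorial : ℚ_[p]) * z) := by
    have e4 := congrArg (fun x : ℚ => (x : ℚ_[p])) e1
    rw [Rat.cast_mul, hz] at e4
    push_cast at e4 ⊢
    rw [e4]; ring
  have e5 : ‖((((2 ^ p - 2) * (p - 1).factorial + p * T : ℕ) : ℤ) : ℚ_[p])‖ ≤ (p : ℝ) ^ (-((5 : ℕ) : ℤ)) := by
    rw [e3, norm_mul, norm_mul, norm_pow, Padic.norm_p]
    calc ((p : ℝ)⁻¹) ^ 5 * (‖((p - 1).factorial : ℚ_[p])‖ * ‖(z : ℚ_[p])‖) ≤ ((p : ℝ)⁻¹) ^ 5 * (1 * 1) := by
          gcongr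
          · exact norm_natCast_le _
          · exact z.2
      _ = (p : ℝ) ^ (-((5 : ℕ) : ℤ)) := by rw [mul_one, mul_one, zpow_neg, inv_pow, zpow_natCast]
  have e6 := (Padic.norm_int_le_pow_iff_dvd _ _).mp e5
  exact_mod_cast e6

/-- The list of primes handled. -/
def goodList : List ℕ := [3, 7, 11, 17, 43, 61, 71, 97, 101, 107, 109, 127, 139, 149, 191, 223, 227,
  229, 233, 251, 277, 347, 353, 409, 433, 443, 467, 503, 521, 563, 587, 593, 691, 787, 811, 827,
  857, 859, 911, 967]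

set_option maxRecDepth 100000 in
lemma goodList_check : goodList.all (fun p => goodCheck p) = true := by
  decide +kernel

end Pool.Agent.TwoPow
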